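import Pool.Agent.P.MP_dabb5b_ag.Tree

/-! A homomorphism onto the integers on semilinear automorphisms of the plane over a domain. -/

namespace Pool.Agent.P.MP_dabb5b_ag

open MvPolynomial

variable {R : Type*} [CommRing R] [IsDomain R]

noncomputable def io (R : Type*) [CommRing R] : S R →+* S (FractionRing R) :=
  map (algebraMap R (FractionRing R))

omit [IsDomain R] in
lemma ext_unique {T : Type*} [CommRing T] (a b : S (FractionRing R) →+* T)
    (h : ∀ f, a (io R f) = b (io R f)) : a = b := by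
  have h1 : a.comp C = b.comp C := IsLocalization.ringHom_ext (nonZeroDivisors R) (by
    ext r
    simpa [io] using h (C r))
  exact ringHom_ext (fun t => DFunLike.congr_fun h1 t) fun i => by simpa [io] using h (X i)

omit [IsDomain R] in
lemma exists_hom {γ : RingAut (S R)} (h : Semi γ) :
    ∃ (Φ : S (FractionRing R) →+* S (FractionRing R)) (ρ : FractionRing R ≃+* FractionRing R),
      (∀ a, Φ (C a) = C (ρ a)) ∧ ∀ f, Φ (io R f) = io R (γ f) := by
  obtain ⟨ρ, h⟩ := h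
  let ρ' : FractionRing R ≃+* FractionRing R := IsFractionRing.ringEquivOfRingEquiv ρ
  refine ⟨eval₂Hom (C.comp ρ'.toRingHom) fun i => io R (γ (X i)), ρ', fun a => by simp, fun f => ?_⟩
  have : (eval₂Hom (C.comp ρ'.toRingHom) fun i => io R (γ (X i))).comp (io R)
      = (io R).comp γ.toRingHom := ringHom_ext (fun r => by simp [io, h, ρ']) fun i => by simp [io]
  exact DFunLike.congr_fun this f

omit [IsDomain R] in
lemma exists_ext {γ : RingAut (S R)} (h : Semi γ) : ∃ γ' : RingAut (S (FractionRing R)),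
    Semi γ' ∧ ∀ f, γ' (io R f) = io R (γ f) := by
  obtain ⟨Φ, ρ, h1, h2⟩ := exists_hom h
  obtain ⟨Ψ, -, -, h3⟩ := exists_hom h.inv
  refine ⟨RingEquiv.ofRingHom Φ Ψ (ext_unique _ _ fun f => ?_) (ext_unique _ _ fun f => ?_),
    ⟨ρ, h1⟩, h2⟩
  · rw [RingHom.comp_apply, h3, h2]
    exact congrArg (io R) (γ.apply_symm_apply f)
  · rw [RingHom.comp_apply, h2, h3]
    exact congrArg (io R) (γ.symm_apply_apply f)

/-- extensions of semilinear automorphisms to the fraction field -/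
def Gam (R : Type*) [CommRing R] : Subgroup (RingAut (S (FractionRing R))) where
  carrier := {γ' | Semi γ' ∧ ∃ γ : RingAut (S R), Semi γ ∧ ∀ f, γ' (io R f) = io R (γ f)}
  mul_mem' := by
    rintro a b ⟨ha, γ, hγ, h⟩ ⟨hb, δ, hδ, h'⟩
    exact ⟨ha.mul hb, γ * δ, hγ.mul hδ, fun f => (congrArg a (h' f)).trans (h _)⟩
  one_mem' := ⟨Semi.one, 1, Semi.one, fun _ => rfl⟩
  inv_mem' := by
    rintro a ⟨ha, γ, hγ, h⟩
    refine ⟨ha.inv, γ⁻¹, hγ.inv, fun f => a.injective ?_⟩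
    rw [h]
    exact (a.apply_symm_apply _).trans (congrArg (io R) (γ.apply_symm_apply f).symm)

lemma lin_coeff {γ : RingAut (S (FractionRing R))} (hγ : γ ∈ Gam R)
    (h : γ '' VB (X 1) = VB (X 1)) : ∃ (b : R) (c : FractionRing R),
      γ (X 1) = C (algebraMap R _ b) * X 1 + C c := by
  classical
  obtain ⟨-, δ, -, h1⟩ := hγ
  obtain ⟨b, c, e⟩ : γ (X 1) ∈ VB (X 1) := h ▸ Set.mem_image_of_mem _ mem_VB
  refine ⟨coeff (Finsupp.single 1 1) (δ (X 1)), c, ?_⟩
  have h2 := h1 (X 1)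
  rw [show io R (X 1) = X 1 by simp [io], e] at h2
  have h3 := congrArg (coeff (Finsupp.single 1 1)) h2
  rw [io, coeff_map] at h3
  rw [e, ← h3]
  simp [coeff_C, (Finsupp.single_ne_zero.2 one_ne_zero).symm]

lemma not_orbit {z : R} (hz0 : z ≠ 0) (hz : ¬ z ∣ 2) {γ : RingAut (S (FractionRing R))}
    (hγ : γ ∈ Gam R) (h : γ '' VB (X 1) = VB (X 1)) :
    γ '' VA (X 0 + C ((algebraMap R (FractionRing R) z)⁻¹ ^ 2) * X 1 ^ 2
      + C (-2 * (algebraMap R (FractionRing R) z)⁻¹) * X 1 ^ 3) (X 1)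
      ≠ VA (X 0 + C ((algebraMap R (FractionRing R) z)⁻¹ ^ 2) * X 1 ^ 2) (X 1) := by
  classical
  intro hU
  have inj := IsFractionRing.injective R (FractionRing R)
  obtain ⟨b, c, e1⟩ := lin_coeff hγ h
  obtain ⟨b', c', e2⟩ := lin_coeff ((Gam R).inv_mem hγ) (by
    conv_lhs => rw [← h, ← image_mul, inv_mul_cancel]
    exact Set.image_id _)
  obtain ⟨⟨ρ', hρ'⟩, δ, ⟨ρ, hρ⟩, h1⟩ := hγ
  have hρρ : ∀ r, ρ' (algebraMap R _ r) = algebraMap R _ (ρ r) := fun r => by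
    have := h1 (C r)
    rw [hρ, io, map_C, map_C, hρ'] at this
    exact C_injective _ _ this
  have hb : ρ b' * b = 1 := by
    have h2 : γ (γ⁻¹ (X 1)) = X 1 := γ.apply_symm_apply _
    rw [e2, map_add, map_mul, hρ', hρ', e1, hρρ] at h2
    have h3 := congrArg (pderiv 1) h2
    simp only [map_add, mul_add, pderiv_C_mul, pderiv_C, pderiv_X_self, mul_one, mul_zero,
      add_zero, ← C_mul] at h3
    apply inj
    rw [map_mul, map_one]
    exact C_injective (Fin 2) _ h3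
  obtain ⟨a, u, v, e3⟩ := hU ▸ Set.mem_image_of_mem γ left_mem_VA
  simp only [map_add, map_mul γ, map_pow γ, hρ', e1] at e3
  have h2 := h1 (X 0)
  rw [show io R (X 0) = X 0 by simp [io]] at h2
  rw [h2] at e3
  generalize ρ' ((algebraMap R (FractionRing R) z)⁻¹ ^ 2) = s at e3
  generalize (algebraMap R (FractionRing R) z)⁻¹ ^ 2 = s' at e3
  set t := ρ' (-2 * (algebraMap R (FractionRing R) z)⁻¹) with ht
  set β := algebraMap R (FractionRing R) b with hβ
  have e4 : io R (δ (X 0)) = C a * X 0 + C (-(t * β ^ 3)) * X 1 ^ 3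
      + C (a * s' - s * β ^ 2 - 3 * t * β ^ 2 * c) * X 1 ^ 2
      + C (u - 2 * s * β * c - 3 * t * β * c ^ 2) * X 1 + C (v - s * c ^ 2 - t * c ^ 3) := by
    simp only [map_neg, map_sub, map_mul, map_pow, map_ofNat]
    linear_combination e3
  have h3 := congrArg (coeff (Finsupp.single 1 3)) e4
  rw [io, coeff_map] at h3
  simp only [coeff_add, coeff_C_mul, coeff_X_pow, coeff_X, coeff_C, Finsupp.single_eq_single_iff,
    (Finsupp.single_ne_zero.2 (three_ne_zero (α := ℕ))).symm] at h3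
  simp at h3
  have hζ : algebraMap R (FractionRing R) (ρ z) ≠ 0 :=
    (map_ne_zero_iff _ inj).2 ((map_ne_zero_iff _ ρ.injective).2 hz0)
  have h4 : ρ z * coeff (Finsupp.single 1 3) (δ (X 0)) = 2 * b ^ 3 := by
    apply inj
    rw [map_mul, h3, ht, map_mul, map_inv₀, hρρ, map_neg, map_ofNat, map_mul, map_pow, map_ofNat]
    field_simp
    rfl
  apply hz
  have h5 : ρ z ∣ ρ 2 := ⟨coeff (Finsupp.single 1 3) (δ (X 0)) * ρ b' ^ 3, by
    rw [map_ofNat]
    linear_combination (-ρ b' ^ 3) * h4 - 2 * ((ρ b' * b) ^ 2 + ρ b' * b + 1) * hb⟩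
  simpa using map_dvd ρ.symm h5

theorem exists_chi_R [CharZero R] {z : R} (hz0 : z ≠ 0) (hz : ¬ z ∣ 2) {σ : RingAut (S R)}
    (hC : ∀ r, σ (C r) = C r) (h1 : σ (X 1) = C z ^ 3 * X 0 + X 1 + C z * X 1 ^ 2)
    (h0 : C z ^ 3 * σ (X 0) = σ (X 1) - C z * σ (X 1) ^ 2 + 2 * C z ^ 2 * σ (X 1) ^ 3 - X 1) :
    ∃ χ : RingAut (S R) → ℤ, (∀ γ δ, Semi γ → Semi δ → χ (γ * δ) = χ γ + χ δ) ∧
      (∀ γ, Semi γ → |χ γ| ≤ 2 * (γ (X 1)).totalDegree + 4) ∧ χ σ = 1 := by
  classical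
  have inj := IsFractionRing.injective R (FractionRing R)
  haveI : CharZero (FractionRing R) := charZero_of_injective_algebraMap inj
  choose! ex hex1 hex2 using fun γ : RingAut (S R) => exists_ext (γ := γ)
  have mem : ∀ γ, Semi γ → ex γ ∈ Gam R := fun γ h => ⟨hex1 γ h, γ, h, hex2 γ h⟩
  have hσ : Semi σ := ⟨RingEquiv.refl R, hC⟩
  have ioX : ∀ i, io R (X i) = X i := fun i => by simp [io]
  set ζ := algebraMap R (FractionRing R) z with hζ
  have hζ0 : ζ ≠ 0 := (map_ne_zero_iff _ inj).2 hz0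
  have u : (C ζ : S (FractionRing R)) * C ζ⁻¹ = 1 := by
    rw [← map_mul, mul_inv_cancel₀ hζ0, map_one]
  obtain ⟨χ, c1, c2, c3⟩ := exists_chi (Gam R) (fun _ h => h.1)
    (U₁ := VA (X 0 + C (ζ⁻¹ ^ 2) * X 1 ^ 2) (X 1))
    (U₂ := VA (X 0 + C (ζ⁻¹ ^ 2) * X 1 ^ 2 + C (-2 * ζ⁻¹) * X 1 ^ 3) (X 1))
    ⟨_, _, Co.base.elem _ _, rfl, rfl⟩ ⟨_, _, (Co.base.elem _ _).elem _ _, rfl, rfl⟩
    (fun γ hγ h => not_orbit hz0 hz hγ h) (mem σ hσ) (by
      obtain ⟨ρ, hρ⟩ := hex1 σ hσ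
      have a1 : ρ ζ = ζ := by
        have := hex2 σ hσ (C z)
        rw [hC, io, map_C, hρ] at this
        exact C_injective _ _ this
      have a2 := congrArg (io R) h1
      have a3 := congrArg (io R) h0
      simp only [map_add, map_sub, map_mul, map_pow, map_ofNat, ← hex2 σ hσ, ioX,
        show io R (C z) = C ζ by simp [io, hζ]] at a2 a3
      rw [(hex1 σ hσ).image_VA]
      have a4 : ex σ (X 0 + C (ζ⁻¹ ^ 2) * X 1 ^ 2 + C (-2 * ζ⁻¹) * X 1 ^ 3)
          = X 0 + C (ζ⁻¹ ^ 2) * X 1 ^ 2 := by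
        simp only [map_add, map_mul, map_pow, hρ, map_inv₀, a1, map_neg, map_ofNat]
        refine mul_left_cancel₀ (pow_ne_zero 3 (C_ne_zero.2 hζ0)) ?_
        generalize ex σ (X 1) = F at *
        linear_combination a3 + a2
          + (C ζ * (C ζ * C ζ⁻¹ + 1) * (F ^ 2 - X 1 ^ 2) - 2 * C ζ ^ 2 * F ^ 3) * u
      rw [a4, a2]
      refine Set.Subset.antisymm (VA_sub left_mem_VA ⟨ζ ^ 3, 1, 0, ?_⟩)
        (VA_sub left_mem_VA ⟨-ζ ^ 3, 1, 0, ?_⟩)
      · simp only [map_pow, map_one, map_zero]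
        linear_combination (-C ζ * (C ζ * C ζ⁻¹ + 1) * X 1 ^ 2) * u
      · simp only [map_pow, map_one, map_zero, map_neg]
        linear_combination (C ζ * (C ζ * C ζ⁻¹ + 1) * X 1 ^ 2) * u)
  refine ⟨fun γ => χ (ex γ), fun γ δ h h' => ?_, fun γ h => ?_, c3⟩
  · have : ex (γ * δ) = ex γ * ex δ := RingEquiv.toRingHom_injective (ext_unique _ _ fun f =>
      (hex2 _ (h.mul h') f).trans ((hex2 _ h _).symm.trans (congrArg (ex γ) (hex2 _ h' f).symm)))
    simp only [this, c1 _ (mem γ h) _ (mem δ h')]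
  · refine (c2 _ (mem γ h)).trans ?_
    have : (ex γ (X 1)).totalDegree ≤ (γ (X 1)).totalDegree := by
      rw [← ioX, hex2 γ h]
      exact Finset.sup_mono (support_map_subset _ _)
    omega

end Pool.Agent.P.MP_dabb5b_ag
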