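import Pool.Agent.P.MP_dabb5b_ag.Top

/-! The degree reduction step for automorphisms of the plane over a field of characteristic zero. -/

namespace Pool.Agent.P.MP_dabb5b_ag

open MvPolynomial
open Finsupp (weight weight_apply weight_single single weight_eq_sum)

abbrev S (K : Type*) [CommRing K] := MvPolynomial (Fin 2) K

lemma mason {Ω : Type*} [Field Ω] [CharZero Ω] {A B : Polynomial Ω} {l : Ω} (hl : l ≠ 0) {p q : ℕ}
    (hp : 2 ≤ p) (hq : 2 ≤ q) (h : IsUnit (A ^ p - Polynomial.C l * B ^ q)) :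
    A.natDegree = 0 ∧ B.natDegree = 0 := by
  obtain ⟨p, rfl⟩ := Nat.exists_eq_add_of_le' hp
  obtain ⟨q, rfl⟩ := Nat.exists_eq_add_of_le' hq
  have hc : IsCoprime A B := by
    obtain ⟨v, hv⟩ := h.exists_left_inv
    exact ⟨v * A ^ (p + 1), -(v * Polynomial.C l * B ^ (q + 1)), by linear_combination hv⟩
  obtain ⟨r, -, hr⟩ := Polynomial.isUnit_iff.1 h
  have hd := congrArg Polynomial.derivative hr
  simp only [Polynomial.derivative_C, Polynomial.derivative_sub, Polynomial.derivative_mul,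
    Polynomial.derivative_pow_succ, zero_mul, zero_add] at hd
  have u1 : IsUnit (Polynomial.C ((p + 1 : ℕ) + 1 : Ω)) :=
    Polynomial.isUnit_C.2 (by exact_mod_cast (Nat.cast_ne_zero.2 (Nat.succ_ne_zero (p + 1))).isUnit)
  have u2 : IsUnit (Polynomial.C l * Polynomial.C ((q + 1 : ℕ) + 1 : Ω)) :=
    (Polynomial.isUnit_C.2 hl.isUnit).mul (Polynomial.isUnit_C.2
      (by exact_mod_cast (Nat.cast_ne_zero.2 (Nat.succ_ne_zero (q + 1))).isUnit))
  have e : Polynomial.C ((p + 1 : ℕ) + 1 : Ω) * (A ^ (p + 1) * Polynomial.derivative A)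
      = Polynomial.C l * Polynomial.C ((q + 1 : ℕ) + 1 : Ω)
        * (B ^ (q + 1) * Polynomial.derivative B) := by linear_combination -hd
  have d1 : A ∣ Polynomial.derivative B := by
    refine (hc.pow_right (n := q + 1)).dvd_of_dvd_mul_left (u2.dvd_mul_left.1 ?_)
    rw [← e]
    exact ((dvd_pow_self A (Nat.succ_ne_zero p)).mul_right _).mul_left _
  have d2 : B ∣ Polynomial.derivative A := by
    refine (hc.symm.pow_right (n := p + 1)).dvd_of_dvd_mul_left (u1.dvd_mul_left.1 ?_)
    rw [e]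
    exact ((dvd_pow_self B (Nat.succ_ne_zero q)).mul_right _).mul_left _
  have z : ∀ {X : Polynomial Ω} {n : ℕ}, X ^ (n + 1) * Polynomial.derivative X = 0 →
      Polynomial.derivative X = 0 := fun {X n} hX => by
    rcases mul_eq_zero.1 hX with h1 | h1
    · rw [pow_eq_zero_iff (Nat.succ_ne_zero n)] at h1
      simp [h1]
    · exact h1
  have hA : Polynomial.derivative A = 0 := by
    by_contra hA
    have hB : Polynomial.derivative B ≠ 0 := fun hB => by
      rw [hB, mul_zero, mul_zero] at e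
      exact hA (z ((mul_eq_zero.1 e).resolve_left u1.ne_zero))
    have n1 := Polynomial.natDegree_le_of_dvd d1 hB
    have n2 := Polynomial.natDegree_le_of_dvd d2 hA
    have n3 := Polynomial.natDegree_derivative_lt (p := A) fun h0 =>
      hA (Polynomial.derivative_of_natDegree_zero h0)
    have n4 := Polynomial.natDegree_derivative_lt (p := B) fun h0 =>
      hB (Polynomial.derivative_of_natDegree_zero h0)
    omega
  rw [hA, mul_zero, mul_zero] at e
  exact ⟨Polynomial.derivative_eq_zero.1 hA,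
    Polynomial.derivative_eq_zero.1 (z ((mul_eq_zero.1 e.symm).resolve_left u2.ne_zero))⟩

lemma aeval_mono2 {K B : Type*} [CommRing K] [CommRing B] [Algebra K B] (α β : B) (e : Fin 2 →₀ ℕ)
    (c : K) : aeval ![α, β] (monomial e c) = algebraMap K B c * (α ^ e 0 * β ^ e 1) := by
  rw [aeval_monomial, Finsupp.prod_fintype _ _ (fun _ => pow_zero _), Fin.prod_univ_two]
  rfl

lemma aeval_scale {K B : Type*} [CommRing K] [CommRing B] [Algebra K B] {f : S K} {p q d : ℕ}
    (h : ∀ e, coeff e f ≠ 0 → q * e 0 + p * e 1 = d) (α β s : B) :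
    aeval ![α * s ^ q, β * s ^ p] f = s ^ d * aeval ![α, β] f := by
  rw [f.as_sum, map_sum, map_sum, Finset.mul_sum]
  refine Finset.sum_congr rfl fun e he => ?_
  rw [aeval_mono2, aeval_mono2, ← h e (mem_support_iff.1 he)]
  ring

lemma weight2 (a b : ℤ) (e : Fin 2 →₀ ℕ) : weight ![a, b] e = a * e 0 + b * e 1 := by
  rw [weight_eq_sum, Fin.sum_univ_two]
  simp [mul_comm]

lemma exists_rem {K : Type*} [CommRing K] (l : K) {p : ℕ} (q : ℕ) (hp : 0 < p) (g : S K) :
    ∃ ρ : S K, (X 0 ^ p - C l * X 1 ^ q : S K) ∣ g - ρ ∧ Le ![1, 0] (p - 1) ρ := by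
  induction g using MvPolynomial.induction_on' with
  | add g g' h h' =>
    obtain ⟨ρ, h1, h2⟩ := h
    obtain ⟨ρ', h1', h2'⟩ := h'
    exact ⟨ρ + ρ', by rw [add_sub_add_comm]; exact h1.add h1', h2.add h2'⟩
  | monomial e c =>
    refine ⟨C c * (X 0 ^ (e 0 % p) * X 1 ^ e 1) * (C l * X 1 ^ q) ^ (e 0 / p), ?_, ?_⟩
    · have e1 : (monomial e c : S K) = C c * (X 0 ^ (e 0 % p) * X 1 ^ e 1) * (X 0 ^ p) ^ (e 0 / p) := by
        have := aeval_mono2 (X 0 : S K) (X 1) e c
        rw [show (![X 0, X 1] : Fin 2 → S K) = X by ext1 i; fin_cases i <;> rfl, aeval_X_left,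
          AlgHom.id_apply] at this
        rw [this, algebraMap_eq]
        conv_lhs => rw [← Nat.mod_add_div (e 0) p]
        ring
      rw [e1, ← mul_sub]
      exact (sub_dvd_pow_sub_pow _ _ _).mul_left _
    · have h0 := (Top.X (K := K) (w := ![1, 0]) 0).pow (e 0 % p)
      have h1 := fun n => (Top.X (K := K) (w := ![1, 0]) 1).pow n
      refine (((Top.C c).mul (h0.mul (h1 (e 1)))).mul (((Top.C l).mul (h1 q)).pow (e 0 / p))).le.mono ?_
      have := Nat.mod_lt (e 0) hp
      simp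
      omega

lemma dvd_of_vanish {K : Type*} [Field K] {α β : K} (hα : α ≠ 0) (hβ : β ≠ 0) {p q : ℕ}
    (hp : 0 < p) (hpq : p.Coprime q) (g : S K)
    (h : aeval ![Polynomial.C α * Polynomial.X ^ q, Polynomial.C β * Polynomial.X ^ p] g = 0) :
    (X 0 ^ p - C (α ^ p / β ^ q) * X 1 ^ q : S K) ∣ g := by
  obtain ⟨ρ, ⟨u, hu⟩, h2⟩ := exists_rem (α ^ p / β ^ q) q hp g
  have h3 := congrArg
    (aeval ![Polynomial.C α * Polynomial.X ^ q, Polynomial.C β * Polynomial.X ^ p]) hu
  have h4 : aeval ![Polynomial.C α * Polynomial.X ^ q, Polynomial.C β * Polynomial.X ^ p]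
      (X 0 ^ p - C (α ^ p / β ^ q) * X 1 ^ q : S K) = 0 := by
    have : Polynomial.C (α ^ p / β ^ q) * Polynomial.C β ^ q = Polynomial.C α ^ p := by
      rw [← map_pow, ← map_pow, ← map_mul, div_mul_cancel₀ _ (pow_ne_zero _ hβ)]
    simp only [map_sub, map_mul, map_pow, aeval_X, aeval_C, Matrix.cons_val_zero,
      Matrix.cons_val_one, Polynomial.algebraMap_eq, mul_pow, ← pow_mul]
    rw [← mul_assoc, this, mul_comm q p, sub_self]
  rw [map_sub, map_mul, h, h4, zero_mul, zero_sub, neg_eq_zero] at h3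
  have h5 : ρ = 0 := by
    ext e
    by_contra he
    rw [coeff_zero] at he
    have h6 := congrArg (fun P => Polynomial.coeff P (q * e 0 + p * e 1)) h3
    have key : ∀ (e' : Fin 2 →₀ ℕ) (c : K),
        aeval ![Polynomial.C α * Polynomial.X ^ q, Polynomial.C β * Polynomial.X ^ p] (monomial e' c)
          = Polynomial.monomial (q * e' 0 + p * e' 1) (c * (α ^ e' 0 * β ^ e' 1)) := by
      intro e' c
      rw [aeval_mono2, ← Polynomial.C_mul_X_pow_eq_monomial, Polynomial.algebraMap_eq]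
      simp only [map_mul, map_pow]
      ring
    rw [ρ.as_sum, map_sum] at h6
    simp only [key, Polynomial.finsetSum_coeff, Polynomial.coeff_monomial, Polynomial.coeff_zero] at h6
    rw [Finset.sum_eq_single e, if_pos rfl] at h6
    · exact mul_ne_zero he (mul_ne_zero (pow_ne_zero _ hα) (pow_ne_zero _ hβ)) h6
    · intro e' he' hne
      rw [if_neg]
      intro h7
      have a1 := h2 e he
      have a2 := h2 e' (mem_support_iff.1 he')
      rw [weight2] at a1 a2
      have a3 : q * e' 0 ≡ q * e 0 [MOD p] := by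
        have := congrArg (· % p) h7
        simpa [Nat.ModEq] using this
      have a4 : e' 0 = e 0 := Nat.ModEq.eq_of_lt_of_lt (Nat.ModEq.cancel_left_of_coprime hpq a3)
        (by omega) (by omega)
      apply hne
      rw [a4] at h7
      have a5 : e' 1 = e 1 := Nat.eq_of_mul_eq_mul_left hp (by omega)
      ext i
      fin_cases i
      exacts [a4, a5]
    · intro h7
      exact absurd (mem_support_iff.2 he) h7
  exact ⟨u, by rw [← hu, h5, sub_zero]⟩

lemma exists_AB {K : Type*} [Field K] (φ : S K ≃ₐ[K] S K) (i : Fin 2) (w : Fin 2 → ℤ) {d : ℤ}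
    {g : S K} (hf : Top w d (φ.symm (X i)) g) : ∃ A : Fin 2 → MvPolynomial (Fin 3) K,
      aeval A g = rename Fin.succ g ∧ ∃ j, degreeOf 0 (A j) ≠ 0 := by
  classical
  let θ0 : Fin 2 → MvPolynomial (Fin 3) K := fun j =>
    rename Fin.succ (φ.symm (X j)) + if j = i then 0 else X 0
  let θ : S K →ₐ[K] MvPolynomial (Fin 3) K := (aeval θ0).comp (φ : S K →ₐ[K] S K)
  have hθ : ∀ j, θ (φ.symm (X j)) = θ0 j := fun j => by simp [θ]
  let ε : MvPolynomial (Fin 3) K →ₐ[K] S K := aeval (Fin.cons 0 X)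
  have hε : ∀ p, ε (rename Fin.succ p) = p := fun p => by
    rw [aeval_rename, show (Fin.cons 0 X : Fin 3 → S K) ∘ Fin.succ = X from rfl, aeval_X_left,
      AlgHom.id_apply]
  have hε0 : ε (X 0) = 0 := by simp [ε]
  have h1 : ε.comp (aeval θ0) = (φ.symm : S K →ₐ[K] S K) := by
    refine algHom_ext fun j => ?_
    simp only [AlgHom.comp_apply, aeval_X, θ0, map_add, hε]
    split_ifs <;> simp [hε0]
  have h2 : ∀ j, ε (θ (X j)) = X j := fun j => by
    exact (DFunLike.congr_fun h1 (φ (X j))).trans (φ.symm_apply_apply _)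
  have hdiv : ∀ p, X 0 ∣ p - rename Fin.succ (ε p) := fun p => by
    induction p using MvPolynomial.induction_on with
    | C c => simp [ε]
    | add p q hp hq => rw [map_add, map_add, add_sub_add_comm]; exact hp.add hq
    | mul_X p j hp =>
      refine Fin.cases ?_ (fun j => ?_) j
      · rw [map_mul, hε0]
        simp
      · have : ε (X j.succ) = X j := by simp [ε]
        rw [map_mul, this, map_mul, rename_X, ← sub_mul]
        exact hp.mul_right _
  let N : Fin 2 → MvPolynomial (Fin 3) K := fun j => θ (X j) - X j.succ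
  have hN : ∀ j e, coeff e (N j) ≠ 0 → e 0 ≠ 0 := fun j e he => by
    obtain ⟨u, hu⟩ := hdiv (θ (X j))
    rw [h2, rename_X] at hu
    rw [show N j = X 0 * u from hu, coeff_X_mul'] at he
    intro h0
    simp [h0] at he
  have hne : (Finset.univ.sigma fun j => (N j).support).Nonempty := by
    by_contra h0
    have h3 : θ = rename Fin.succ := algHom_ext fun j => by
      rw [rename_X, ← sub_eq_zero]
      by_contra h4
      obtain ⟨e, he⟩ := support_nonempty.2 h4
      exact h0 ⟨⟨j, e⟩, Finset.mem_sigma.2 ⟨Finset.mem_univ _, he⟩⟩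
    obtain ⟨j, hj⟩ := exists_ne i
    have h5 := hθ j
    simp [h3, θ0, hj] at h5
  obtain ⟨⟨j0, e0⟩, h0, hmin⟩ := Finset.exists_min_image _
    (fun t : (_ : Fin 2) × (Fin 3 →₀ ℕ) =>
      ((w t.1 - (w 0 * t.2 1 + w 1 * t.2 2) : ℤ) : ℚ) / (t.2 0 : ℚ)) hne
  have h0' : coeff e0 (N j0) ≠ 0 := by simpa using h0
  have hb := hN j0 e0 h0'
  let W : Fin 3 → ℤ := ![w j0 - (w 0 * e0 1 + w 1 * e0 2), e0 0 * w 0, e0 0 * w 1]
  have hW : ∀ e : Fin 3 →₀ ℕ, weight W e = (w j0 - (w 0 * e0 1 + w 1 * e0 2)) * e 0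
      + e0 0 * (w 0 * e 1 + w 1 * e 2) := fun e => by
    rw [weight_eq_sum, Fin.sum_univ_three]
    simp [W]
    ring
  have hWs : ∀ j : Fin 2, W j.succ = e0 0 * w j := fun j => by fin_cases j <;> rfl
  have hle : ∀ j, Le W (e0 0 * w j) (θ (X j)) := fun j => by
    have a1 : Le W (e0 0 * w j) (N j) := fun e he => by
      have a2 := hmin ⟨j, e⟩ (by simpa using he)
      have a3 : (0 : ℚ) < e 0 := by exact_mod_cast Nat.pos_of_ne_zero (hN j e he)
      have a4 : (0 : ℚ) < e0 0 := by exact_mod_cast Nat.pos_of_ne_zero hb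
      rw [div_le_div_iff₀ a4 a3] at a2
      have a5 : (w j0 - (w 0 * e0 1 + w 1 * e0 2)) * (e 0 : ℤ)
          ≤ (w j - (w 0 * e 1 + w 1 * e 2)) * (e0 0 : ℤ) := by exact_mod_cast a2
      rw [hW]
      linarith
    have a2 := a1.add (hWs j ▸ Le.X (K := K) (w := W) j.succ)
    simpa [N] using a2
  have hs := hf.scale (b := e0 0) (by exact_mod_cast Nat.pos_of_ne_zero hb)
  refine ⟨fun j => weightedHomogeneousComponent W (e0 0 * w j) (θ (X j)), ?_, j0, ?_⟩
  · have t1 := Top.aeval (fun j => Top.of_le (hle j)) hs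
    have t2 := Top.aeval (a := X ∘ Fin.succ) (b := X ∘ Fin.succ)
      (fun j => hWs j ▸ Top.X (K := K) (w := W) j.succ) hs
    have e1 : aeval (fun j => θ (X j)) = θ := algHom_ext fun j => aeval_X _ j
    have e2 : (aeval (X ∘ Fin.succ) : S K →ₐ[K] MvPolynomial (Fin 3) K) = rename Fin.succ :=
      algHom_ext fun j => by simp
    have e3 : θ0 i = rename Fin.succ (φ.symm (X i)) := by simp [θ0]
    rw [e1, hθ, e3] at t1
    rw [e2] at t2
    exact t1.unique t2
  · have : coeff e0 (weightedHomogeneousComponent W (e0 0 * w j0) (θ (X j0))) ≠ 0 := by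
      rw [coeff_weightedHomogeneousComponent, if_pos (by rw [hW]; ring)]
      have e1 : coeff e0 (X j0.succ : MvPolynomial (Fin 3) K) = 0 := by
        rw [coeff_X, if_neg]
        rintro rfl
        simp at hb
      simpa [N, e1] using h0'
    have h7 := monomial_le_degreeOf 0 (mem_support_iff.2 this)
    exact fun h8 => hb (Nat.le_zero.1 (h7.trans_eq h8))

lemma not_both {K : Type*} [Field K] (φ : S K ≃ₐ[K] S K) (h : ∀ i, Le ![1, 0] 0 (φ.symm (X i))) :
    False := by
  have h1 := Le.aeval0 h (φ (X 0))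
  have e1 : aeval (fun j => φ.symm (X j)) = (φ.symm : S K →ₐ[K] S K) :=
    algHom_ext fun j => aeval_X _ j
  rw [e1] at h1
  exact not_le_X (K := K) (w := ![1, 0]) (i := 0) (d := 0) (by simp) (by simpa using h1)

lemma totalDegree_pos {K : Type*} [Field K] (φ : S K ≃ₐ[K] S K) (i : Fin 2) :
    0 < (φ (X i)).totalDegree := by
  by_contra h
  have h1 := totalDegree_eq_zero_iff_eq_C.1 (Nat.le_zero.1 (not_lt.1 h))
  have h2 : φ (X i) = φ (C (coeff 0 (φ (X i)))) := by
    rw [← algebraMap_eq, AlgEquiv.commutes]; exact h1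
  have h3 := congrArg totalDegree (φ.injective h2)
  simp at h3

theorem jung_step {K : Type*} [Field K] [CharZero K] (φ : S K ≃ₐ[K] S K)
    (hm : 2 ≤ (φ (X 0)).totalDegree) (hmn : (φ (X 1)).totalDegree ≤ (φ (X 0)).totalDegree) :
    ∃ (c : K) (r : ℕ), (φ (X 0) - C c * φ (X 1) ^ r).totalDegree < (φ (X 0)).totalDegree := by
  have hn := totalDegree_pos φ 1
  have ne : ∀ i, φ (X i) ≠ 0 := fun i h => by simpa [h] using totalDegree_pos φ i
  obtain ⟨P, hP, hP0, dP⟩ := top_totalDegree (ne 0)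
  obtain ⟨Q, hQ, hQ0, dQ⟩ := top_totalDegree (ne 1)
  generalize (φ (X 0)).totalDegree = m at *
  generalize (φ (X 1)).totalDegree = n at *
  obtain ⟨i, d, g, hg, hg0, hd⟩ : ∃ i d g, Top ![(m : ℤ), n] d (φ.symm (X i)) g ∧ g ≠ 0 ∧ 2 ≤ d := by
    by_contra h
    push Not at h
    refine not_both φ fun i e he => ?_
    obtain ⟨d, g, h1, h2⟩ := exists_top ![(m : ℤ), n] (f := φ.symm (X i)) (by
      rintro h0; simp [h0] at he)
    have h3 := h1.le e he
    have h4 := h i d g h1 h2
    rw [weight2] at h3 ⊢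
    have : (m : ℤ) * e 0 < 2 := by nlinarith [Int.natCast_nonneg n, Int.natCast_nonneg (e 1)]
    rcases Nat.eq_zero_or_pos (e 0) with h5 | h5
    · simp [h5]
    · nlinarith
  have hPQ : aeval ![P, Q] g = 0 := by
    have t1 := Top.aeval (w' := fun _ => 1) (a := fun j => φ (X j)) (b := ![P, Q])
      (fun j => by fin_cases j; exacts [hP, hQ]) hg
    have e1 : aeval (fun j => φ (X j)) = (φ : S K →ₐ[K] S K) := algHom_ext fun j => aeval_X _ j
    rw [e1] at t1
    refine t1.unique (Top.zero ?_)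
    simpa using (Le.X (K := K) (w := fun _ => 1) i).mono (show 1 ≤ d - 1 by omega)
  obtain ⟨q, p, hqp, hq, hp⟩ := Nat.exists_coprime m n
  have hg1 : 0 < Nat.gcd m n := Nat.gcd_pos_of_pos_right _ hn
  generalize Nat.gcd m n = t at *
  have p0 : 0 < p := Nat.pos_of_ne_zero (by rintro rfl; omega)
  obtain ⟨d', hd'⟩ : ∃ d' : ℕ, ∀ e, coeff e g ≠ 0 → q * e 0 + p * e 1 = d' := by
    obtain ⟨e0, he0⟩ := support_nonempty.2 hg0
    refine ⟨q * e0 0 + p * e0 1, fun e he => Nat.eq_of_mul_eq_mul_left hg1 ?_⟩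
    have a1 := hg.1 he
    have a2 := hg.1 (mem_support_iff.1 he0)
    rw [weight2, hq, hp] at a1 a2
    push_cast at a1 a2
    zify
    linarith
  let L := FractionRing (S K)
  let ι : S K →ₐ[K] L := IsScalarTower.toAlgHom K (S K) L
  have hι : Function.Injective ι := IsFractionRing.injective (S K) L
  have hα : ι P ≠ 0 := (map_ne_zero_iff _ hι).2 hP0
  have hβ : ι Q ≠ 0 := (map_ne_zero_iff _ hι).2 hQ0
  have comp : ∀ {B B' : Type _} [CommRing B] [CommRing B'] [Algebra K B] [Algebra K B']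
      (ψ : B →ₐ[K] B') (a b : B), ψ (aeval ![a, b] g) = aeval ![ψ a, ψ b] g := by
    intro B B' _ _ _ _ ψ a b
    rw [← AlgHom.comp_apply, comp_aeval]
    congr 2
    ext1 j
    fin_cases j <;> rfl
  have hL : aeval ![ι P, ι Q] g = 0 := by rw [← comp, hPQ, map_zero]
  have hp1 : p = 1 := by
    by_contra hp1
    have hp2 : 2 ≤ p := by omega
    have hq2 : 2 ≤ q := by
      by_contra h
      have : q * t < p * t := Nat.mul_lt_mul_of_pos_right (by omega) hg1
      omega
    have hdv := dvd_of_vanish hα hβ p0 hqp.symm (map (algebraMap K L) g) (by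
      rw [aeval_map_algebraMap, aeval_scale hd']
      have := comp (IsScalarTower.toAlgHom K L (Polynomial L)) (ι P) (ι Q)
      rw [hL, map_zero] at this
      exact mul_eq_zero_of_right _ this.symm)
    obtain ⟨A, hA, j, hj⟩ := exists_AB φ i _ hg
    let Ω := FractionRing (S L)
    let κ : S K →ₐ[K] Ω := ((IsScalarTower.toAlgHom L (S L) Ω).restrictScalars K).comp
      (mapAlgHom (Algebra.ofId K L))
    have hκ : Function.Injective κ := (IsFractionRing.injective (S L) Ω).comp
      (map_injective _ (algebraMap K L).injective)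
    let η : MvPolynomial (Fin 3) K →ₐ[K] Polynomial Ω :=
      (Polynomial.mapAlgHom κ).comp (finSuccEquiv K 2)
    have hη : ∀ f, (η f).natDegree = degreeOf 0 f := fun f => by
      rw [← natDegree_finSuccEquiv]
      exact Polynomial.natDegree_map_eq_of_injective hκ _
    have h1 : aeval ![η (A 0), η (A 1)] g = Polynomial.C (κ g) := by
      rw [← comp, show ![A 0, A 1] = A by ext1 j; fin_cases j <;> rfl, hA]
      have : η.comp (rename Fin.succ) = (IsScalarTower.toAlgHom K Ω (Polynomial Ω)).comp κ :=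
        algHom_ext fun j => by
          have e := finSuccEquiv_X_succ (R := K) (n := 2) (j := j)
          simp only [AlgHom.comp_apply, rename_X]
          exact (congrArg (Polynomial.map (κ : S K →+* Ω)) e).trans (Polynomial.map_C _)
      exact DFunLike.congr_fun this g
    have h2 := map_dvd (aeval (R := L) ![η (A 0), η (A 1)]) hdv
    rw [aeval_map_algebraMap, h1] at h2
    have h3 := isUnit_of_dvd_unit h2 (Polynomial.isUnit_C.2 ((map_ne_zero_iff _ hκ).2 hg0).isUnit)
    simp only [map_sub, map_mul, map_pow, aeval_X, aeval_C, Matrix.cons_val_zero,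
      Matrix.cons_val_one] at h3
    have h4 := mason (l := algebraMap L Ω (ι P ^ p / ι Q ^ q))
      ((map_ne_zero _).2 (div_ne_zero (pow_ne_zero _ hα) (pow_ne_zero _ hβ))) hp2 hq2 h3
    rw [hη, hη] at h4
    fin_cases j
    exacts [hj h4.1, hj h4.2]
  subst hp1
  have hF : (aeval ![Polynomial.X, 1] g : Polynomial K) ≠ 0 := fun h0 => by
    have hy : ι (X 1) ≠ 0 := (map_ne_zero_iff _ hι).2 (X_ne_zero 1)
    have a1 := aeval_scale hd' (ι (X 0) / ι (X 1) ^ q) 1 (ι (X 1))
    have a2 := comp (Polynomial.aeval (ι (X 0) / ι (X 1) ^ q)) Polynomial.X 1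
    rw [h0, map_zero, Polynomial.aeval_X, map_one] at a2
    rw [← a2, mul_zero, div_mul_cancel₀ _ (pow_ne_zero _ hy), one_mul, pow_one, ← comp,
      show (![X 0, X 1] : Fin 2 → S K) = X by ext1 i; fin_cases i <;> rfl, aeval_X_left,
      AlgHom.id_apply] at a1
    exact hg0 ((map_eq_zero_iff _ hι).1 a1)
  have halg : IsAlgebraic K (ι P / ι Q ^ q) := by
    refine ⟨_, hF, ?_⟩
    have a1 := aeval_scale hd' (ι P) (ι Q) (ι Q)⁻¹
    rw [hL, mul_zero, pow_one, mul_inv_cancel₀ hβ, inv_pow, ← div_eq_mul_inv] at a1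
    rw [comp (Polynomial.aeval (ι P / ι Q ^ q)), Polynomial.aeval_X, map_one, a1]
  obtain ⟨l, hl⟩ := IsIntegrallyClosed.isIntegral_iff.1 (halg.isIntegral.tower_top (A := S K))
  have hl' : P = l * Q ^ q := hι (by
    rw [map_mul, map_pow, show ι l = _ from hl, div_mul_cancel₀ _ (pow_ne_zero _ hβ)])
  have hl0 : l ≠ 0 := by rintro rfl; exact hP0 (by simpa using hl')
  have hQq : (Q ^ q).totalDegree = m := by
    have : ∀ k : ℕ, (Q ^ k).totalDegree = k * n := fun k => by
      induction k with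
      | zero => simp
      | succ k ih => rw [pow_succ, totalDegree_mul_of_isDomain (pow_ne_zero _ hQ0) hQ0, ih, dQ]; ring
    rw [this, hq, hp, one_mul]
  have hdeg := congrArg totalDegree hl'
  rw [totalDegree_mul_of_isDomain hl0 (pow_ne_zero _ hQ0), hQq, dP] at hdeg
  have hc := totalDegree_eq_zero_iff_eq_C.1 (show l.totalDegree = 0 by omega)
  refine ⟨coeff 0 l, q, ?_⟩
  have t1 := (Top.C (coeff 0 l)).mul (hQ.pow q)
  have e1 : (0 : ℤ) + q • (n : ℤ) = m := by rw [hq, hp]; simp
  rw [e1] at t1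
  have t2 := hP.sub t1
  rw [← hc, ← hl', sub_self] at t2
  have t3 : Le (fun _ => 1) ((m - 1 : ℕ) : ℤ) _ := t2.lt.mono (by omega)
  rw [← hc]
  have := le_one_iff.1 t3
  omega

end Pool.Agent.P.MP_dabb5b_ag
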