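import Pool.Agent.P.MP_dabb5b_ag.Ext

/-! The explicit automorphism and the transfer to `n` variables. -/

namespace Pool.Agent.P.MP_dabb5b_ag

open MvPolynomial

section Formulas

variable {A : Type*} [CommRing A]

def fF (x y z : A) : A := z ^ 3 * x + y + z * y ^ 2

def fH (x y z : A) : A :=
  x - (y ^ 2 + z ^ 2 * x) ^ 2 + 2 * (3 * y ^ 2 * (y ^ 2 + z ^ 2 * x)
    + 3 * y * z * (y ^ 2 + z ^ 2 * x) ^ 2 + z ^ 2 * (y ^ 2 + z ^ 2 * x) ^ 3 - z * x * y)

def gF (x y z : A) : A := y - z * y ^ 2 + 2 * z ^ 2 * y ^ 3 - z ^ 3 * x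

def gH (x y z : A) : A := x - 4 * y ^ 4 + 2 * z * x * y - (y ^ 2 - 2 * z * y ^ 3 + z ^ 2 * x) ^ 2

lemma I1 (x y z : A) :
    z ^ 3 * fH x y z = fF x y z - z * fF x y z ^ 2 + 2 * z ^ 2 * fF x y z ^ 3 - y := by
  unfold fH fF; ring

lemma I2 (x y z : A) : z ^ 3 * gH x y z = y - gF x y z - z * gF x y z ^ 2 := by
  unfold gH gF; ring

lemma gF_f (x y z : A) : gF (fH x y z) (fF x y z) z = y := by
  rw [gF, I1]; ring

lemma fF_g (x y z : A) : fF (gH x y z) (gF x y z) z = y := by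
  rw [fF, I2]; ring

lemma gH_f [IsDomain A] (x y : A) {z : A} (hz : z ≠ 0) : gH (fH x y z) (fF x y z) z = x := by
  refine mul_left_cancel₀ (pow_ne_zero 3 hz) ?_
  rw [I2, gF_f, fF]; ring

lemma fH_g [IsDomain A] (x y : A) {z : A} (hz : z ≠ 0) : fH (gH x y z) (gF x y z) z = x := by
  refine mul_left_cancel₀ (pow_ne_zero 3 hz) ?_
  rw [I1, fF_g, gF]; ring

variable {B F : Type*} [CommRing B] [FunLike F A B] [RingHomClass F A B] (φ : F) (x y z : A)

lemma map_fF : φ (fF x y z) = fF (φ x) (φ y) (φ z) := by simp [fF]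
lemma map_fH : φ (fH x y z) = fH (φ x) (φ y) (φ z) := by simp [fH, map_ofNat]
lemma map_gF : φ (gF x y z) = gF (φ x) (φ y) (φ z) := by simp [gF, map_ofNat]
lemma map_gH : φ (gH x y z) = gH (φ x) (φ y) (φ z) := by simp [gH, map_ofNat]

end Formulas

variable (k : Type*) [Field k] (m : ℕ)

noncomputable def sub2 (H F : MvPolynomial (Fin (m + 3)) k) :
    MvPolynomial (Fin (m + 3)) k →ₐ[k] MvPolynomial (Fin (m + 3)) k :=
  aeval fun i => if i = 0 then H else if i = 1 then F else X i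

variable {k m}

lemma sub2_0 (H F : MvPolynomial (Fin (m + 3)) k) : sub2 k m H F (X 0) = H := by simp [sub2]
lemma sub2_1 (H F : MvPolynomial (Fin (m + 3)) k) : sub2 k m H F (X 1) = F := by simp [sub2]
lemma sub2_ge (H F : MvPolynomial (Fin (m + 3)) k) {i : Fin (m + 3)} (h : 2 ≤ i.val) :
    sub2 k m H F (X i) = X i := by
  have h0 : i ≠ 0 := by rintro rfl; simp at h
  have h1 : i ≠ 1 := by rintro rfl; simp at h
  simp [sub2, h0, h1]

lemma two_val : ((2 : Fin (m + 3)) : ℕ) = 2 := rfl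

lemma idx (i : Fin (m + 3)) : i = 0 ∨ i = 1 ∨ 2 ≤ i.val := by
  simp only [Fin.ext_iff, Fin.val_zero, Fin.val_one]; omega

variable (k m)

noncomputable def sigma : MvPolynomial (Fin (m + 3)) k ≃ₐ[k] MvPolynomial (Fin (m + 3)) k :=
  AlgEquiv.ofAlgHom (sub2 k m (fH (X 0) (X 1) (X 2)) (fF (X 0) (X 1) (X 2)))
    (sub2 k m (gH (X 0) (X 1) (X 2)) (gF (X 0) (X 1) (X 2)))
    (algHom_ext fun i => by
      rcases idx i with rfl | rfl | h
      · rw [AlgHom.comp_apply, sub2_0, map_gH, sub2_0, sub2_1, sub2_ge _ _ two_val.ge,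
          gH_f _ _ (X_ne_zero _)]; rfl
      · rw [AlgHom.comp_apply, sub2_1, map_gF, sub2_0, sub2_1, sub2_ge _ _ two_val.ge, gF_f]; rfl
      · rw [AlgHom.comp_apply, sub2_ge _ _ h, sub2_ge _ _ h]; rfl)
    (algHom_ext fun i => by
      rcases idx i with rfl | rfl | h
      · rw [AlgHom.comp_apply, sub2_0, map_fH, sub2_0, sub2_1, sub2_ge _ _ two_val.ge,
          fH_g _ _ (X_ne_zero _)]; rfl
      · rw [AlgHom.comp_apply, sub2_1, map_fF, sub2_0, sub2_1, sub2_ge _ _ two_val.ge, fF_g]; rfl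
      · rw [AlgHom.comp_apply, sub2_ge _ _ h, sub2_ge _ _ h]; rfl)

lemma sigma_0 : sigma k m (X 0) = fH (X 0) (X 1) (X 2) := sub2_0 _ _
lemma sigma_1 : sigma k m (X 1) = fF (X 0) (X 1) (X 2) := sub2_1 _ _
lemma sigma_ge {i : Fin (m + 3)} (h : 2 ≤ i.val) : sigma k m (X i) = X i := sub2_ge _ _ h

def ee : Fin 2 ⊕ Fin (m + 1) ≃ Fin (m + 3) := finSumFinEquiv.trans (finCongr (by omega))

lemma ee_0 : ee m (.inl 0) = 0 := rfl
lemma ee_1 : ee m (.inl 1) = 1 := rfl
lemma ee_inr (j : Fin (m + 1)) : (ee m (.inr j)).val = 2 + j.val := rfl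
lemma ee_2 : ee m (.inr 0) = 2 := Fin.ext (ee_inr m 0)

lemma jac_sigma : (Matrix.of fun i j => pderiv i (sigma k m (X j))).det = 1 := by
  classical
  rw [← Matrix.det_submatrix_equiv_self (ee m)]
  have e : (Matrix.of fun i j => pderiv i (sigma k m (X j))).submatrix (ee m) (ee m)
      = Matrix.fromBlocks (Matrix.of fun i j => pderiv (ee m (.inl i)) (sigma k m (X (ee m (.inl j)))))
        0 (Matrix.of fun i j => pderiv (ee m (.inr i)) (sigma k m (X (ee m (.inl j))))) 1 := by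
    ext1 (i | i) (j | j)
    · rfl
    · simp [sigma_ge k m (i := ee m (.inr j)) (by rw [ee_inr]; omega)]
    · rfl
    · simp [sigma_ge k m (i := ee m (.inr j)) (by rw [ee_inr]; omega), Pi.single_apply,
        Matrix.one_apply, eq_comm]
  rw [e, Matrix.det_fromBlocks_zero₁₂, Matrix.det_one, mul_one, Matrix.det_fin_two]
  simp only [Matrix.of_apply, ee_0, ee_1, sigma_0, sigma_1]
  have n02 : (2 : Fin (m + 3)) ≠ 0 := fun h => absurd (congrArg Fin.val h) (by rw [two_val]; simp)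
  have n12 : (2 : Fin (m + 3)) ≠ 1 := fun h => absurd (congrArg Fin.val h) (by rw [two_val]; simp)
  have a0 := congrArg (pderiv 0) (I1 (X 0 : MvPolynomial (Fin (m + 3)) k) (X 1) (X 2))
  have a1 := congrArg (pderiv 1) (I1 (X 0 : MvPolynomial (Fin (m + 3)) k) (X 1) (X 2))
  have a2 : pderiv 0 (fF (X 0 : MvPolynomial (Fin (m + 3)) k) (X 1) (X 2)) = X 2 ^ 3 := by
    simp [fF, n02]
  have two : ∀ i : Fin (m + 3), pderiv i (2 : MvPolynomial (Fin (m + 3)) k) = 0 := fun i =>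
    (pderiv i).map_natCast 2
  simp only [map_sub, map_add, pderiv_mul, pderiv_pow, pderiv_X_of_ne n02, pderiv_X_of_ne n12,
    pderiv_X_self, pderiv_X_of_ne (Fin.zero_ne_one (n := m + 1)).symm, two, a2] at a0 a1
  rw [a2]
  refine mul_left_cancel₀ (pow_ne_zero 3 (X_ne_zero (2 : Fin (m + 3)))) ?_
  push_cast at a0 a1
  linear_combination pderiv 1 (fF (X 0 : MvPolynomial (Fin (m + 3)) k) (X 1) (X 2)) * a0
    - X 2 ^ 3 * a1

noncomputable def EE : MvPolynomial (Fin (m + 3)) k ≃ₐ[k] S (MvPolynomial (Fin (m + 1)) k) :=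
  (renameEquiv k (ee m).symm).trans (sumAlgEquiv k (Fin 2) (Fin (m + 1)))

lemma EE_inl (i : Fin 2) : EE k m (X (ee m (.inl i))) = X i := by simp [EE]
lemma EE_inr (j : Fin (m + 1)) : EE k m (X (ee m (.inr j))) = C (X j) := by simp [EE]

lemma mem_base_iff (h : MvPolynomial (Fin (m + 3)) k) :
    h ∈ supported k {i : Fin (m + 3) | 2 ≤ i.val} ↔ ∃ r, EE k m h = C r := by
  constructor
  · intro hh
    induction hh using Algebra.adjoin_induction with
    | mem x hx =>
      obtain ⟨i, hi, rfl⟩ := hx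
      obtain ⟨j, rfl⟩ : ∃ j, ee m (.inr j) = i :=
        ⟨⟨i.val - 2, by omega⟩, Fin.ext (by rw [ee_inr]; have : 2 ≤ i.val := hi; simp; omega)⟩
      exact ⟨_, EE_inr k m j⟩
    | algebraMap t => exact ⟨C t, by rw [AlgEquiv.commutes]; rfl⟩
    | add x y _ _ hx hy =>
      obtain ⟨r, hr⟩ := hx
      obtain ⟨s, hs⟩ := hy
      exact ⟨r + s, by rw [map_add, map_add, hr, hs]⟩
    | mul x y _ _ hx hy =>
      obtain ⟨r, hr⟩ := hx
      obtain ⟨s, hs⟩ := hy
      exact ⟨r * s, by rw [map_mul, map_mul, hr, hs]⟩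
  · rintro ⟨r, hr⟩
    rw [← AlgEquiv.eq_symm_apply] at hr
    subst hr
    induction r using MvPolynomial.induction_on with
    | C t =>
      rw [show (C (C t) : S (MvPolynomial (Fin (m + 1)) k)) = algebraMap k _ t from rfl,
        AlgEquiv.commutes]
      exact Subalgebra.algebraMap_mem _ t
    | add p q hp hq => rw [map_add, map_add]; exact add_mem hp hq
    | mul_X p j hp =>
      rw [map_mul, map_mul, ← EE_inr, AlgEquiv.symm_apply_apply]
      exact mul_mem hp (X_mem_supported.2 (show 2 ≤ _ by rw [ee_inr]; omega))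

lemma semi_of {R : Type*} [CommRing R] {γ : RingAut (S R)} (h : ∀ r, ∃ s, γ (C r) = C s)
    (h' : ∀ r, ∃ s, γ.symm (C r) = C s) : Semi γ := by
  choose ρ hρ using h
  choose ρ' hρ' using h'
  have inj := C_injective (Fin 2) R
  exact ⟨{ toFun := ρ
           invFun := ρ'
           left_inv := fun r => inj (by rw [← hρ', ← hρ, RingEquiv.symm_apply_apply])
           right_inv := fun r => inj (by rw [← hρ, ← hρ', RingEquiv.apply_symm_apply])
           map_mul' := fun a b => inj (by rw [← hρ, map_mul, map_mul, hρ, hρ, map_mul])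
           map_add' := fun a b => inj (by rw [← hρ, map_add, map_add, hρ, hρ, map_add]) }, hρ⟩

/-- transport of an automorphism along an isomorphism -/
def cjE {k A B : Type*} [CommRing k] [CommRing A] [CommRing B] [Algebra k A] [Algebra k B]
    (E : A ≃ₐ[k] B) (τ : A ≃ₐ[k] A) : RingAut B := (E.symm.trans (τ.trans E)).toRingEquiv

section
variable {k A B : Type*} [CommRing k] [CommRing A] [CommRing B] [Algebra k A] [Algebra k B]
  (E : A ≃ₐ[k] B)

lemma cjE_apply (τ : A ≃ₐ[k] A) (h : A) : cjE E τ (E h) = E (τ h) := by simp [cjE]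
lemma cjE_apply' (τ : A ≃ₐ[k] A) (h : B) : cjE E τ h = E (τ (E.symm h)) := rfl
lemma cjE_mul (τ τ' : A ≃ₐ[k] A) : cjE E (τ * τ') = cjE E τ * cjE E τ' := by
  ext1 f
  simp [cjE]
lemma cjE_symm (τ : A ≃ₐ[k] A) : (cjE E τ).symm = cjE E τ⁻¹ := rfl
lemma cjE_alg (τ : A ≃ₐ[k] A) (t : k) : cjE E τ (algebraMap k B t) = algebraMap k B t :=
  (E.symm.trans (τ.trans E)).commutes t
end

lemma cj_C {τ : MvPolynomial (Fin (m + 3)) k ≃ₐ[k] MvPolynomial (Fin (m + 3)) k}
    (h : ∀ f ∈ supported k {i : Fin (m + 3) | 2 ≤ i.val},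
      τ f ∈ supported k {i : Fin (m + 3) | 2 ≤ i.val}) (r) : ∃ s, cjE (EE k m) τ (C r) = C s := by
  rw [cjE_apply']
  exact (mem_base_iff k m _).1 (h _ ((mem_base_iff k m _).2 ⟨r, (EE k m).apply_symm_apply _⟩))

/-- A group of automorphisms that maps the base ring into itself and contains `sigma` has a
homomorphism onto the integers that kills its locally finite elements. -/
theorem exists_hom_int [CharZero k]
    (G : Subgroup (MvPolynomial (Fin (m + 3)) k ≃ₐ[k] MvPolynomial (Fin (m + 3)) k))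
    (hG : ∀ τ ∈ G, ∀ f ∈ supported k {i : Fin (m + 3) | 2 ≤ i.val},
      τ f ∈ supported k {i : Fin (m + 3) | 2 ≤ i.val}) (hσ : sigma k m ∈ G) :
    ∃ χ : G →* Multiplicative ℤ, χ ⟨_, hσ⟩ = Multiplicative.ofAdd 1 ∧
      ∀ τ : G, (∃ V : Submodule k (MvPolynomial (Fin (m + 3)) k), V.FG ∧ X 1 ∈ V ∧
        ∀ v ∈ V, τ.1 v ∈ V) → χ τ = 1 := by
  have semi : ∀ τ ∈ G, Semi (cjE (EE k m) τ) := fun τ hτ =>
    semi_of (cj_C k m (hG τ hτ)) (by rw [cjE_symm]; exact cj_C k m (hG _ (G.inv_mem hτ)))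
  have e0 : EE k m (X 0) = X 0 := EE_inl k m 0
  have e1 : EE k m (X 1) = X 1 := EE_inl k m 1
  have e2 : EE k m (X 2) = C (X 0) := by rw [← ee_2, EE_inr]
  have s0 : cjE (EE k m) (sigma k m) (X 0)
      = fH (A := S (MvPolynomial (Fin (m + 1)) k)) (X 0) (X 1) (C (X 0)) := by
    have := cjE_apply (EE k m) (sigma k m) (X 0)
    rwa [sigma_0, map_fH, e0, e1, e2] at this
  have s1 : cjE (EE k m) (sigma k m) (X 1)
      = fF (A := S (MvPolynomial (Fin (m + 1)) k)) (X 0) (X 1) (C (X 0)) := by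
    have := cjE_apply (EE k m) (sigma k m) (X 1)
    rwa [sigma_1, map_fF, e0, e1, e2] at this
  obtain ⟨χ, c1, c2, c3⟩ := exists_chi_R (R := MvPolynomial (Fin (m + 1)) k) (z := X 0)
    (X_ne_zero 0) (fun h => by
      have := map_dvd (constantCoeff (R := k)) h
      simp [map_ofNat] at this) (σ := cjE (EE k m) (sigma k m)) (fun r => by
      induction r using MvPolynomial.induction_on with
      | C t => exact cjE_alg _ _ t
      | add p q hp hq => rw [map_add, map_add, hp, hq]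
      | mul_X p j hp =>
        rw [map_mul, map_mul, hp, ← EE_inr, cjE_apply, sigma_ge k m (by rw [ee_inr]; omega)])
    s1 (by rw [s0, s1, I1])
  let χ' : G →* Multiplicative ℤ := MonoidHom.mk' (fun τ => Multiplicative.ofAdd (χ (cjE (EE k m) τ)))
    fun a b => by rw [Subgroup.coe_mul, cjE_mul, c1 _ _ (semi _ a.2) (semi _ b.2)]; rfl
  refine ⟨χ', congrArg Multiplicative.ofAdd c3, ?_⟩
  rintro τ ⟨V, ⟨s, rfl⟩, hX, hV⟩
  let d := s.sup fun v => (EE k m v).totalDegree
  have hd : ∀ v ∈ Submodule.span k (s : Set _), (EE k m v).totalDegree ≤ d := by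
    have : Submodule.span k (s : Set _) ≤ Submodule.comap (EE k m).toLinearMap
        ((restrictTotalDegree (Fin 2) (MvPolynomial (Fin (m + 1)) k) d).restrictScalars k) :=
      Submodule.span_le.2 fun v hv => (mem_restrictTotalDegree _ _ _).2
        (Finset.le_sup (f := fun v => (EE k m v).totalDegree) hv)
    exact fun v hv => (mem_restrictTotalDegree _ _ _).1 (this hv)
  have hj : ∀ j : ℕ, (τ ^ j).1 (X 1) ∈ Submodule.span k (s : Set _) := fun j => by
    induction j with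
    | zero => exact hX
    | succ j ih => rw [pow_succ']; exact hV _ ih
  have hb : ∀ j : ℕ, |(j : ℤ) * χ (cjE (EE k m) τ)| ≤ 2 * d + 4 := fun j => by
    have a1 := c2 _ (semi _ (τ ^ j).2)
    have a2 : χ (cjE (EE k m) (τ ^ j).1) = j * χ (cjE (EE k m) τ) := by
      have := congrArg Multiplicative.toAdd (map_pow χ' τ j)
      rw [toAdd_pow, nsmul_eq_mul] at this
      exact this
    have a3 := hd _ (hj j)
    rw [← e1, cjE_apply, a2] at a1
    omega
  have h0 : χ (cjE (EE k m) τ) = 0 := by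
    by_contra h0
    have a1 := hb (2 * d + 5)
    have a2 := Int.one_le_abs h0
    rw [abs_mul, Nat.abs_cast] at a1
    push_cast at a1
    nlinarith
  exact congrArg Multiplicative.ofAdd h0

end Pool.Agent.P.MP_dabb5b_ag
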