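import Mathlib

/-! Leading forms of polynomials for integer weights. -/

namespace Pool.Agent.P.MP_dabb5b_ag

open MvPolynomial
open Finsupp (weight weight_apply weight_single single)

variable {K : Type*} [CommRing K] {σ τ : Type*}

/-- all monomials have weight at most `d` -/
def Le (w : σ → ℤ) (d : ℤ) (f : MvPolynomial σ K) : Prop := ∀ e, coeff e f ≠ 0 → weight w e ≤ d

/-- `g` is the component of weight `d` of `f`, and `f` has no higher component -/
def Top (w : σ → ℤ) (d : ℤ) (f g : MvPolynomial σ K) : Prop :=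
  g.IsWeightedHomogeneous w d ∧ Le w (d - 1) (f - g)

variable {w : σ → ℤ} {d d' : ℤ} {f f' g g' : MvPolynomial σ K}

lemma Le.zero : Le w d (0 : MvPolynomial σ K) := fun e h => by simp at h

lemma Le.mono (h : Le w d f) (hd : d ≤ d') : Le w d' f := fun e he => (h e he).trans hd

lemma Le.add (h : Le w d f) (h' : Le w d f') : Le w d (f + f') := fun e he => by
  by_cases h1 : coeff e f = 0
  · exact h' e (by simpa [h1] using he)
  · exact h e h1

lemma Le.neg (h : Le w d f) : Le w d (-f) := fun e he => h e (by simpa using he)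

lemma Le.sub (h : Le w d f) (h' : Le w d f') : Le w d (f - f') := by
  rw [sub_eq_add_neg]; exact h.add h'.neg

lemma Le.mul (h : Le w d f) (h' : Le w d' f') : Le w (d + d') (f * f') := fun e he => by
  classical
  rw [coeff_mul] at he
  obtain ⟨p, hp, h1⟩ := Finset.exists_ne_zero_of_sum_ne_zero he
  rw [← Finset.HasAntidiagonal.mem_antidiagonal.1 hp, map_add]
  exact add_le_add (h _ (left_ne_zero_of_mul h1)) (h' _ (right_ne_zero_of_mul h1))

lemma Le.of_hom (h : g.IsWeightedHomogeneous w d) : Le w d g := fun _ he => (h he).le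

lemma Le.C (a : K) : Le w 0 (C a : MvPolynomial σ K) := Le.of_hom (isWeightedHomogeneous_C w a)

lemma Le.X (i : σ) : Le w (w i) (X i : MvPolynomial σ K) := Le.of_hom (isWeightedHomogeneous_X K w i)

lemma Le.sum {ι : Type*} (s : Finset ι) {F : ι → MvPolynomial σ K} (h : ∀ i ∈ s, Le w d (F i)) :
    Le w d (∑ i ∈ s, F i) := by
  classical
  induction s using Finset.induction_on with
  | empty => simpa using Le.zero
  | insert a s ha ih =>
    rw [Finset.sum_insert ha]
    exact (h a (by simp)).add (ih fun i hi => h i (by simp [hi]))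

lemma not_le_X [Nontrivial K] {i : σ} (h : d < w i) : ¬ Le w d (X i : MvPolynomial σ K) := fun h' => by
  classical
  have := h' (single i 1) (by simp)
  rw [weight_single, one_smul] at this
  omega

lemma Le.aeval0 {a : τ → MvPolynomial σ K} (h : ∀ i, Le w 0 (a i)) (p : MvPolynomial τ K) :
    Le w 0 (aeval a p) := by
  induction p using MvPolynomial.induction_on with
  | C c => simpa using Le.C c
  | add p q hp hq => rw [map_add]; exact hp.add hq
  | mul_X p i hp => rw [map_mul, aeval_X]; simpa using hp.mul (h i)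

lemma Top.le (h : Top w d f g) : Le w d f := by
  have := (h.2.mono (show d - 1 ≤ d by omega)).add (Le.of_hom h.1)
  simpa using this

lemma Top.self (h : g.IsWeightedHomogeneous w d) : Top w d g g := ⟨h, by simpa using Le.zero⟩

lemma Top.zero (h : Le w (d - 1) f) : Top w d f 0 :=
  ⟨isWeightedHomogeneous_zero K w d, by simpa using h⟩

lemma Top.lt (h : Top w d f 0) : Le w (d - 1) f := by simpa using h.2

lemma Top.add (h : Top w d f g) (h' : Top w d f' g') : Top w d (f + f') (g + g') :=
  ⟨h.1.add h'.1, by have := h.2.add h'.2; rwa [sub_add_sub_comm] at this⟩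

lemma Top.sub (h : Top w d f g) (h' : Top w d f' g') : Top w d (f - f') (g - g') :=
  ⟨h.1.sub h'.1, by have := h.2.sub h'.2; rwa [sub_sub_sub_comm] at this⟩

lemma Top.mul (h : Top w d f g) (h' : Top w d' f' g') : Top w (d + d') (f * f') (g * g') := by
  refine ⟨h.1.mul h'.1, ?_⟩
  have h1 := (h.2.mul h'.le).mono (show d - 1 + d' ≤ d + d' - 1 by omega)
  have h2 := ((Le.of_hom h.1).mul h'.2).mono (show d + (d' - 1) ≤ d + d' - 1 by omega)
  have e : f * f' - g * g' = (f - g) * f' + g * (f' - g') := by ring
  rw [e]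
  exact h1.add h2

lemma Top.C (a : K) : Top w 0 (C a : MvPolynomial σ K) (C a) := Top.self (isWeightedHomogeneous_C w a)

lemma Top.X (i : σ) : Top w (w i) (X i : MvPolynomial σ K) (X i) :=
  Top.self (isWeightedHomogeneous_X K w i)

lemma Top.pow (h : Top w d f g) (n : ℕ) : Top w (n • d) (f ^ n) (g ^ n) := by
  induction n with
  | zero => simpa using Top.C (w := w) (1 : K)
  | succ n ih => rw [pow_succ, pow_succ, succ_nsmul]; exact ih.mul h

lemma Top.prod {ι : Type*} (s : Finset ι) {D : ι → ℤ} {F G : ι → MvPolynomial σ K}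
    (h : ∀ i ∈ s, Top w (D i) (F i) (G i)) :
    Top w (∑ i ∈ s, D i) (∏ i ∈ s, F i) (∏ i ∈ s, G i) := by
  classical
  induction s using Finset.induction_on with
  | empty => simpa using Top.C (w := w) (1 : K)
  | insert a s ha ih =>
    rw [Finset.sum_insert ha, Finset.prod_insert ha, Finset.prod_insert ha]
    exact (h a (by simp)).mul (ih fun i hi => h i (by simp [hi]))

lemma Top.sum {ι : Type*} (s : Finset ι) {F G : ι → MvPolynomial σ K}
    (h : ∀ i ∈ s, Top w d (F i) (G i)) : Top w d (∑ i ∈ s, F i) (∑ i ∈ s, G i) := by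
  classical
  induction s using Finset.induction_on with
  | empty => simpa using Top.zero (Le.zero (w := w) (K := K))
  | insert a s ha ih =>
    rw [Finset.sum_insert ha, Finset.sum_insert ha]
    exact (h a (by simp)).add (ih fun i hi => h i (by simp [hi]))

lemma Top.unique (h : Top w d f g) (h' : Top w d f g') : g = g' := by
  have h1 := (h.sub h')
  rw [sub_self] at h1
  rw [← sub_eq_zero]
  ext e
  by_contra he
  have h2 := h1.1 he
  have h3 := h1.2 e (by rwa [zero_sub, coeff_neg, neg_ne_zero])
  omega

lemma Top.of_le (h : Le w d f) : Top w d f (weightedHomogeneousComponent w d f) := by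
  refine ⟨weightedHomogeneousComponent_isWeightedHomogeneous d f, fun e he => ?_⟩
  rw [coeff_sub, coeff_weightedHomogeneousComponent] at he
  split_ifs at he with h1
  · simp at he
  · have := h e (by simpa using he)
    omega

lemma exists_top (w : σ → ℤ) (hf : f ≠ 0) : ∃ d g, Top w d f g ∧ g ≠ 0 := by
  obtain ⟨e, he, h⟩ := f.support.exists_max_image (weight w) (support_nonempty.2 hf)
  refine ⟨weight w e, _, Top.of_le fun e' he' => h e' (mem_support_iff.2 he'), fun h0 => ?_⟩
  have := congrArg (coeff e) h0
  rw [coeff_weightedHomogeneousComponent, if_pos rfl] at this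
  exact mem_support_iff.1 he this

lemma top_monomial {w' : τ → ℤ} {a b : σ → MvPolynomial τ K} (h : ∀ i, Top w' (w i) (a i) (b i))
    (e : σ →₀ ℕ) (c : K) :
    Top w' (weight w e) (aeval a (monomial e c)) (aeval b (monomial e c)) := by
  rw [aeval_monomial, aeval_monomial, weight_apply]
  have := (Top.C (w := w') c).mul (Top.prod e.support fun i _ => (h i).pow (e i))
  rw [zero_add] at this
  exact this

lemma Top.aeval {w' : τ → ℤ} {a b : σ → MvPolynomial τ K} (h : ∀ i, Top w' (w i) (a i) (b i))
    (hf : Top w d f g) : Top w' d (aeval a f) (aeval b g) := by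
  have h1 : Top w' d (MvPolynomial.aeval a g) (MvPolynomial.aeval b g) := by
    rw [g.as_sum, map_sum, map_sum]
    refine Top.sum _ fun e he => ?_
    rw [← hf.1 (mem_support_iff.1 he)]
    exact top_monomial h e _
  have h2 : Top w' d (MvPolynomial.aeval a (f - g)) 0 := by
    apply Top.zero
    rw [(f - g).as_sum, map_sum]
    exact Le.sum _ fun e he => (top_monomial h e _).le.mono (hf.2 e (mem_support_iff.1 he))
  simpa using h2.add h1

lemma weight_mul (b : ℤ) (w : σ → ℤ) (e : σ →₀ ℕ) :
    weight (fun i => b * w i) e = b * weight w e := by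
  simp only [weight_apply, Finsupp.sum, Finset.mul_sum, nsmul_eq_mul]
  exact Finset.sum_congr rfl fun i _ => by ring

lemma Top.scale {b : ℤ} (hb : 1 ≤ b) (h : Top w d f g) : Top (fun i => b * w i) (b * d) f g := by
  refine ⟨fun e he => by rw [weight_mul, h.1 he], fun e he => ?_⟩
  have := h.2 e he
  rw [weight_mul]
  nlinarith

lemma weight_one (e : σ →₀ ℕ) : weight (fun _ => (1 : ℤ)) e = (e.sum fun _ n => n : ℕ) := by
  simp [weight_apply, Finsupp.sum]

lemma le_one_iff {n : ℕ} : Le (fun _ => 1) n f ↔ f.totalDegree ≤ n := by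
  constructor
  · intro h
    refine Finset.sup_le fun e he => ?_
    have := h e (mem_support_iff.1 he)
    rw [weight_one] at this
    exact_mod_cast this
  · intro h e he
    rw [weight_one]
    exact_mod_cast (le_totalDegree (mem_support_iff.2 he)).trans h

lemma top_totalDegree (hf : f ≠ 0) :
    ∃ g, Top (fun _ => 1) f.totalDegree f g ∧ g ≠ 0 ∧ g.totalDegree = f.totalDegree := by
  obtain ⟨e, he, h⟩ := f.support.exists_mem_eq_sup (support_nonempty.2 hf) fun s => s.sum fun _ n => n
  have h1 := Top.of_le (le_one_iff.2 (le_refl f.totalDegree))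
  have h2 : coeff e (weightedHomogeneousComponent (fun _ => (1 : ℤ)) (f.totalDegree : ℤ) f) ≠ 0 := by
    rw [coeff_weightedHomogeneousComponent, if_pos (by rw [weight_one, totalDegree, h])]
    exact mem_support_iff.1 he
  refine ⟨_, h1, fun h0 => h2 (by simp [h0]), le_antisymm (le_one_iff.1 (Le.of_hom h1.1)) ?_⟩
  exact h.le.trans (le_totalDegree (mem_support_iff.2 h2))

end Pool.Agent.P.MP_dabb5b_ag
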