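import Pool.Agent.P.MP_dabb5b_ag.Jung

/-! The tree of coordinate systems of the plane and edge counting homomorphisms. -/

namespace Pool.Agent.P.MP_dabb5b_ag

open MvPolynomial

section Forest

variable {V : Type*}

open Classical in
noncomputable def Hrec (Adj : V → V → Prop) (ht : V → ℕ) (g : V → V → ℤ) (v : V) : ℤ :=
  if h : ∃ u, Adj u v ∧ ht u < ht v then Hrec Adj ht g h.choose + g h.choose v else 0
termination_by ht v
decreasing_by exact h.choose_spec.2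

lemma forest (Adj : V → V → Prop) (ht : V → ℕ)
    (uniq : ∀ u u' v, Adj u v → Adj u' v → ht u < ht v → ht u' < ht v → u = u')
    (g : V → V → ℤ) (hg : ∀ u v, |g u v| ≤ 1) :
    ∃ H : V → ℤ, (∀ u v, Adj u v → ht u < ht v → H v = H u + g u v) ∧ ∀ v, |H v| ≤ ht v := by
  refine ⟨Hrec Adj ht g, fun u v h1 h2 => ?_, fun v => ?_⟩
  · have h : ∃ u, Adj u v ∧ ht u < ht v := ⟨u, h1, h2⟩
    rw [Hrec, dif_pos h, uniq _ _ v h.choose_spec.1 h1 h.choose_spec.2 h2]
  · induction hn : ht v using Nat.strong_induction_on generalizing v with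
    | _ n ih =>
      rw [Hrec]
      split_ifs with h
      · have h1 := ih _ (hn ▸ h.choose_spec.2) h.choose rfl
        have h2 := hg h.choose v
        have h3 := h.choose_spec.2
        have h4 := abs_add_le (Hrec Adj ht g h.choose) (g h.choose v)
        omega
      · simp

lemma forest2 {α β : Type*} (E : α → β → Prop) (ha : α → ℕ) (hb : β → ℕ)
    (ua : ∀ U W W', E U W → E U W' → hb W < ha U → hb W' < ha U → W = W')
    (ub : ∀ U U' W, E U W → E U' W → ha U ≤ hb W → ha U' ≤ hb W → U = U')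
    (f : α → β → ℤ) (hf : ∀ U W, |f U W| ≤ 1) :
    ∃ (HA : α → ℤ) (HB : β → ℤ), (∀ U W, E U W → HA U - HB W = f U W) ∧
      ∀ W, |HB W| ≤ 2 * hb W + 1 := by
  obtain ⟨H, h1, h2⟩ := forest (V := α ⊕ β)
    (fun u v => match u, v with
      | .inl U, .inr W => E U W
      | .inr W, .inl U => E U W
      | _, _ => False)
    (Sum.elim (fun U => 2 * ha U) fun W => 2 * hb W + 1)
    (by
      rintro (u | u) (u' | u') (v | v) a1 a2 a3 a4 <;> simp only [Sum.elim_inl, Sum.elim_inr] at *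
      · rw [ub _ _ _ a1 a2 (by omega) (by omega)]
      · rw [ua _ _ _ a1 a2 (by omega) (by omega)])
    (fun u v => match u, v with
      | .inl U, .inr W => -f U W
      | .inr W, .inl U => f U W
      | _, _ => 0)
    (by rintro (u | u) (v | v) <;> simp [hf])
  refine ⟨fun U => H (.inl U), fun W => H (.inr W), fun U W h => ?_, fun W => by
    simpa using h2 (.inr W)⟩
  rcases le_or_gt (ha U) (hb W) with h3 | h3
  · have := h1 (.inl U) (.inr W) h (by simp; omega)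
    simp only at this ⊢
    omega
  · have := h1 (.inr W) (.inl U) h (by simp; omega)
    simp only at this ⊢
    omega

end Forest

/-- automorphisms that are semilinear over the coefficient ring -/
def Semi {K : Type*} [CommRing K] (γ : RingAut (S K)) : Prop :=
  ∃ ρ : K ≃+* K, ∀ a, γ (C a) = C (ρ a)

lemma Semi.one {K : Type*} [CommRing K] : Semi (1 : RingAut (S K)) := ⟨RingEquiv.refl K, fun _ => rfl⟩

lemma Semi.mul {K : Type*} [CommRing K] {γ δ : RingAut (S K)} (h : Semi γ) (h' : Semi δ) :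
    Semi (γ * δ) := by
  obtain ⟨ρ, h⟩ := h
  obtain ⟨ρ', h'⟩ := h'
  exact ⟨ρ'.trans ρ, fun a => (congrArg γ (h' a)).trans (h _)⟩

lemma Semi.inv {K : Type*} [CommRing K] {γ : RingAut (S K)} (h : Semi γ) : Semi γ⁻¹ := by
  obtain ⟨ρ, h⟩ := h
  refine ⟨ρ.symm, fun a => γ.injective ?_⟩
  rw [h, RingEquiv.apply_symm_apply]
  exact γ.apply_symm_apply _

variable {K : Type*} [Field K]

def Co (P Q : S K) : Prop := ∃ φ : S K ≃ₐ[K] S K, φ (X 0) = P ∧ φ (X 1) = Q

def VA (P Q : S K) : Set (S K) := {g | ∃ a b c : K, g = C a * P + C b * Q + C c}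

def VB (Q : S K) : Set (S K) := {g | ∃ b c : K, g = C b * Q + C c}

def Ed (U W : Set (S K)) : Prop := ∃ P Q, Co P Q ∧ U = VA P Q ∧ W = VB Q

noncomputable def dg (U : Set (S K)) : ℕ := sSup (totalDegree '' U)

variable {P Q P' Q' : S K}

lemma left_mem_VA : P ∈ VA P Q := ⟨1, 0, 0, by simp⟩
lemma right_mem_VA : Q ∈ VA P Q := ⟨0, 1, 0, by simp⟩
lemma mem_VB : Q ∈ VB Q := ⟨1, 0, by simp⟩
lemma VB_sub_VA : VB Q ⊆ VA P Q := by rintro _ ⟨b, c, rfl⟩; exact ⟨0, b, c, by simp⟩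

lemma VA_sub (h : P' ∈ VA P Q) (h' : Q' ∈ VA P Q) : VA P' Q' ⊆ VA P Q := by
  obtain ⟨a, b, c, rfl⟩ := h
  obtain ⟨a', b', c', rfl⟩ := h'
  rintro _ ⟨u, v, t, rfl⟩
  exact ⟨u * a + v * a', u * b + v * b', u * c + v * c' + t, by simp only [map_add, map_mul]; ring⟩

lemma VB_sub (h : Q' ∈ VB Q) : VB Q' ⊆ VB Q := by
  obtain ⟨b, c, rfl⟩ := h
  rintro _ ⟨v, t, rfl⟩
  exact ⟨v * b, v * c + t, by simp only [map_add, map_mul]; ring⟩

lemma VA_swap : VA P Q = VA Q P :=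
  (VA_sub right_mem_VA left_mem_VA).antisymm (VA_sub right_mem_VA left_mem_VA)

lemma deg_C_mul (a : K) (P : S K) : (C a * P).totalDegree ≤ P.totalDegree := by
  simpa using totalDegree_mul (C a) P

lemma deg_VA {g : S K} (h : g ∈ VA P Q) : g.totalDegree ≤ max P.totalDegree Q.totalDegree := by
  obtain ⟨a, b, c, rfl⟩ := h
  have h1 := totalDegree_add (C a * P + C b * Q) (C c)
  have h2 := totalDegree_add (C a * P) (C b * Q)
  have h3 := deg_C_mul a P
  have h4 := deg_C_mul b Q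
  rw [totalDegree_C] at h1
  omega

lemma dg_VA : dg (VA P Q) = max P.totalDegree Q.totalDegree := by
  refine IsGreatest.csSup_eq ⟨?_, by rintro _ ⟨g, hg, rfl⟩; exact deg_VA hg⟩
  rcases le_total P.totalDegree Q.totalDegree with h | h
  · exact ⟨Q, right_mem_VA, (max_eq_right h).symm⟩
  · exact ⟨P, left_mem_VA, (max_eq_left h).symm⟩

lemma dg_VB : dg (VB Q) = Q.totalDegree :=
  IsGreatest.csSup_eq ⟨⟨Q, mem_VB, rfl⟩, by
    rintro _ ⟨g, hg, rfl⟩
    simpa using deg_VA (VB_sub_VA (P := Q) hg)⟩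

lemma ua_aux (h : VA P Q = VA P' Q') (h1 : Q.totalDegree < dg (VA P Q))
    (h2 : Q'.totalDegree < dg (VA P Q)) : VB Q' ⊆ VB Q := by
  obtain ⟨a, b, c, e⟩ : Q' ∈ VA P Q := h ▸ right_mem_VA
  by_cases ha : a = 0
  · exact VB_sub ⟨b, c, by simpa [ha] using e⟩
  · have : P ∈ VA Q' Q := ⟨a⁻¹, -(a⁻¹ * b), -(a⁻¹ * c), by
      have : (C a⁻¹ : S K) * C a = 1 := by rw [← map_mul, inv_mul_cancel₀ ha, map_one]
      simp only [e, map_neg, map_mul]
      linear_combination (-P) * this⟩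
    have := deg_VA this
    rw [dg_VA] at h1 h2
    omega

lemma ua (U W W' : Set (S K)) (h : Ed U W) (h' : Ed U W') (h1 : dg W < dg U) (h2 : dg W' < dg U) :
    W = W' := by
  obtain ⟨P, Q, -, rfl, rfl⟩ := h
  obtain ⟨P', Q', -, e, rfl⟩ := h'
  rw [dg_VB] at h1 h2
  exact (ua_aux e.symm (e ▸ h2) (e ▸ h1)).antisymm (ua_aux e h1 h2)

lemma natDegree_le_one (hQ : 0 < Q.totalDegree) (r : Polynomial K)
    (h : (Polynomial.aeval Q r).totalDegree ≤ Q.totalDegree) : r.natDegree ≤ 1 := by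
  by_contra hN
  have hr : r ≠ 0 := by rintro rfl; simp at hN
  obtain ⟨T, hT, hT0, -⟩ := top_totalDegree (f := Q) (by rintro rfl; simp at hQ)
  generalize Q.totalDegree = n at *
  have t : ∀ i, Top (fun _ => 1) (0 + i • (n : ℤ)) (C (r.coeff i) * Q ^ i) (C (r.coeff i) * T ^ i) :=
    fun i => (Top.C _).mul (hT.pow i)
  have t1 : Top (fun _ => 1) (0 + r.natDegree • (n : ℤ)) (Polynomial.aeval Q r)
      (0 + C (r.coeff r.natDegree) * T ^ r.natDegree) := by
    rw [Polynomial.aeval_eq_sum_range, Finset.sum_range_succ]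
    simp only [smul_eq_C_mul]
    refine (Top.zero (Le.sum _ fun i hi => (t i).le.mono ?_)).add (t _)
    have := Finset.mem_range.1 hi
    simp only [nsmul_eq_mul]
    nlinarith
  have t2 := t1.unique (Top.zero ((le_one_iff.2 h).mono (by
    simp only [nsmul_eq_mul]
    have : 2 ≤ r.natDegree := by omega
    nlinarith)))
  rw [zero_add] at t2
  exact mul_ne_zero (C_ne_zero.2 (Polynomial.leadingCoeff_ne_zero.2 hr)) (pow_ne_zero _ hT0) t2

lemma triangular [CharZero K] (β : S K ≃ₐ[K] S K) {b c : K} (h : β (X 1) = C b * X 1 + C c) :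
    ∃ (a : K) (r : Polynomial K), β (X 0) = C a * X 0 + Polynomial.aeval (X 1) r := by
  have chain : ∀ T, pderiv 0 (β T) = β (pderiv 0 T) * pderiv 0 (β (X 0)) := fun T => by
    induction T using MvPolynomial.induction_on with
    | C t => rw [← algebraMap_eq, AlgEquiv.commutes]; simp
    | add p q hp hq => simp only [map_add, hp, hq, add_mul]
    | mul_X p i hp =>
      fin_cases i
      · simp [hp]; ring
      · simp [hp, h]; ring
  have h1 := chain (β.symm (X 0))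
  rw [AlgEquiv.apply_symm_apply, pderiv_X_self] at h1
  obtain ⟨a, -, ha⟩ := isUnit_iff_eq_C_of_isReduced.1 (IsUnit.of_mul_eq_one_right _ h1.symm)
  refine ⟨a, aeval ![0, Polynomial.X] (β (X 0) - C a * X 0), ?_⟩
  have h2 : pderiv 0 (β (X 0) - C a * X 0) = 0 := by simp [ha]
  rw [← sub_eq_iff_eq_add']
  generalize β (X 0) - C a * X 0 = v at h2
  have h3 : ∀ e, coeff e v ≠ 0 → e 0 = 0 := fun e he => by
    by_contra h0
    have h4 := coeff_pderiv (i := 0) v (e - Finsupp.single 0 1)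
    rw [h2, coeff_zero, Finsupp.sub_add_single_one_cancel h0] at h4
    exact mul_ne_zero he (Nat.cast_add_one_ne_zero _) h4.symm
  conv_lhs => rw [v.as_sum]
  conv_rhs => rw [v.as_sum, map_sum, map_sum]
  refine Finset.sum_congr rfl fun e he => ?_
  have h5 := aeval_mono2 (X 0 : S K) (X 1) e (coeff e v)
  rw [show (![X 0, X 1] : Fin 2 → S K) = X by ext1 i; fin_cases i <;> rfl, aeval_X_left,
    AlgHom.id_apply] at h5
  rw [aeval_mono2, h5, h3 e (mem_support_iff.1 he)]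
  simp

lemma ub_aux [CharZero K] (h : Co P Q) (h' : Co P' Q') (e : VB Q = VB Q')
    (h1 : P.totalDegree ≤ Q.totalDegree) (h2 : P'.totalDegree ≤ Q.totalDegree) :
    VA P' Q' ⊆ VA P Q := by
  have hQ' : Q' ∈ VB Q := e ▸ mem_VB
  refine VA_sub ?_ (VB_sub_VA hQ')
  obtain ⟨φ, rfl, rfl⟩ := h
  obtain ⟨φ', rfl, rfl⟩ := h'
  obtain ⟨b, c, e1⟩ := hQ'
  have hC : ∀ t : K, φ (C t) = C t := fun t => by rw [← algebraMap_eq, AlgEquiv.commutes]
  obtain ⟨a, r, e2⟩ := triangular (φ'.trans φ.symm) (b := b) (c := c) (φ.injective (by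
    simp [e1, hC]))
  have e3 : φ' (X 0) = C a * φ (X 0) + Polynomial.aeval (φ (X 1)) r := by
    have := congrArg φ e2
    rw [AlgEquiv.trans_apply, AlgEquiv.apply_symm_apply, map_add, map_mul, hC,
      ← Polynomial.aeval_algHom_apply] at this
    exact this
  have e4 := natDegree_le_one (totalDegree_pos φ 1) r (by
    rw [← sub_eq_iff_eq_add'] at e3
    rw [← e3]
    have a1 := totalDegree_sub (φ' (X 0)) (C a * φ (X 0))
    have a2 := deg_C_mul a (φ (X 0))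
    omega)
  refine ⟨a, r.coeff 1, r.coeff 0, ?_⟩
  rw [e3]
  conv_lhs => rw [Polynomial.eq_X_add_C_of_natDegree_le_one e4]
  simp [add_assoc]

lemma ub [CharZero K] (U U' W : Set (S K)) (h : Ed U W) (h' : Ed U' W) (h1 : dg U ≤ dg W)
    (h2 : dg U' ≤ dg W) : U = U' := by
  obtain ⟨P, Q, c, rfl, rfl⟩ := h
  obtain ⟨P', Q', c', rfl, e⟩ := h'
  have e1 : Q.totalDegree = Q'.totalDegree := by rw [← dg_VB, e, dg_VB]
  rw [dg_VB, dg_VA] at h1 h2
  exact (ub_aux c' c e.symm (by omega) (by omega)).antisymm (ub_aux c c' e (by omega) (by omega))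

lemma Co.base : Co (X 0 : S K) (X 1) := ⟨AlgEquiv.refl, rfl, rfl⟩

lemma Co.swap (h : Co P Q) : Co Q P := by
  obtain ⟨φ, rfl, rfl⟩ := h
  exact ⟨(renameEquiv K (Equiv.swap 0 1)).trans φ, by simp, by simp⟩

lemma Co.elem (h : Co P Q) (c : K) (r : ℕ) : Co (P + C c * Q ^ r) Q := by
  obtain ⟨φ, rfl, rfl⟩ := h
  have hC : φ (C c) = C c := by rw [← algebraMap_eq, AlgEquiv.commutes]
  refine ⟨(AlgEquiv.ofAlgHom (aeval ![X 0 + C c * X 1 ^ r, X 1]) (aeval ![X 0 - C c * X 1 ^ r, X 1])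
    (algHom_ext fun i => ?_) (algHom_ext fun i => ?_)).trans φ, by simp [hC], by simp⟩
  · fin_cases i <;> simp
  · fin_cases i <;> simp

lemma mem_base (h : P.totalDegree ≤ 1) : P ∈ VA (X 0 : S K) (X 1) := by
  classical
  refine ⟨coeff (Finsupp.single 0 1) P, coeff (Finsupp.single 1 1) P, coeff 0 P, ?_⟩
  ext e
  have key : e = Finsupp.single 0 1 ∨ e = Finsupp.single 1 1 ∨ e = 0 ∨ 2 ≤ e 0 + e 1 := by
    simp only [Finsupp.ext_iff, Fin.forall_fin_two]
    simp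
    omega
  have n1 : (Finsupp.single 0 1 : Fin 2 →₀ ℕ) ≠ Finsupp.single 1 1 := fun h => by
    simpa using congrArg (· 0) h
  have n2 : ∀ i, (Finsupp.single i 1 : Fin 2 →₀ ℕ) ≠ 0 := fun i => by simp
  rcases key with rfl | rfl | rfl | h2
  · simp [coeff_X, coeff_C, n1.symm, (n2 _).symm]
  · simp [coeff_X, coeff_C, n1, (n2 _).symm]
  · simp [coeff_X, n2]
  · have a1 : coeff e P = 0 := by
      by_contra h0
      have := (le_totalDegree (mem_support_iff.2 h0)).trans h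
      rw [Finsupp.sum_fintype _ _ (fun _ => rfl), Fin.sum_univ_two] at this
      omega
    have a2 : ∀ i, Finsupp.single i 1 ≠ e := fun i h => by
      subst h
      fin_cases i <;> simp at h2
    have a3 : (0 : Fin 2 →₀ ℕ) ≠ e := fun h => by subst h; simp at h2
    simp [a1, coeff_X, coeff_C, a2, a3]

lemma VA_base (h : Co P Q) (hP : P.totalDegree ≤ 1) (hQ : Q.totalDegree ≤ 1) :
    VA (X 0) (X 1) = VA P Q := by
  refine Set.Subset.antisymm ?_ (VA_sub (mem_base hP) (mem_base hQ))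
  obtain ⟨a, b, c, e⟩ := mem_base hP
  obtain ⟨a', b', c', e'⟩ := mem_base hQ
  obtain ⟨φ, h0, h1⟩ := h
  have hC : ∀ t : K, φ (C t) = C t := fun t => by rw [← algebraMap_eq, AlgEquiv.commutes]
  have ind : ∀ u v t : K, C u * P + C v * Q = C t → u = 0 := fun u v t h => by
    have : (C u * X 0 + C v * X 1 : S K) = C t := φ.injective (by simp [hC, h0, h1, h])
    simpa using congrArg (pderiv 0) this
  have hδ : a * b' - a' * b ≠ 0 := fun hδ => by
    have hδ' : (C a * C b' - C a' * C b : S K) = 0 := by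
      rw [← map_mul, ← map_mul, ← map_sub, hδ, map_zero]
    have a1 := ind b' (-b) (b' * c - b * c') (by
      simp only [e, e', map_neg, map_sub, map_mul]; linear_combination X 0 * hδ')
    have a2 := ind a' (-a) (a' * c - a * c') (by
      simp only [e, e', map_neg, map_sub, map_mul]; linear_combination (-X 1) * hδ')
    have := totalDegree_pos φ 1
    rw [h1, e', a1, a2] at this
    simp at this
  obtain ⟨t, ht⟩ := hδ.isUnit.exists_left_inv
  have ht' : (C t * (C a * C b' - C a' * C b) : S K) = 1 := by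
    rw [← map_mul, ← map_mul, ← map_sub, ← map_mul, ht, map_one]
  refine VA_sub ⟨t * b', -(t * b), t * (b * c' - b' * c), ?_⟩
    ⟨-(t * a'), t * a, t * (a' * c - a * c'), ?_⟩
  · simp only [e, e', map_neg, map_sub, map_mul]; linear_combination (-X 0) * ht'
  · simp only [e, e', map_neg, map_sub, map_mul]; linear_combination (-X 1) * ht'

lemma conn [CharZero K] (p : S K → S K → Prop) (h0 : p (X 0) (X 1))
    (hA : ∀ P Q P' Q', Co P Q → Co P' Q' → VA P Q = VA P' Q' → p P Q → p P' Q')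
    (hB : ∀ P P' Q, Co P Q → Co P' Q → p P Q → p P' Q) (h : Co P Q) : p P Q := by
  induction hn : P.totalDegree + Q.totalDegree using Nat.strong_induction_on generalizing P Q with
  | _ n ih =>
    have step : ∀ P Q : S K, Co P Q → P.totalDegree + Q.totalDegree = n → 2 ≤ P.totalDegree →
        Q.totalDegree ≤ P.totalDegree → p P Q := by
      intro P Q h hn h1 h2
      obtain ⟨φ, rfl, rfl⟩ := id h
      obtain ⟨c, r, hc⟩ := jung_step φ h1 h2
      have h3 := h.elem (-c) r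
      rw [map_neg, neg_mul, ← sub_eq_add_neg] at h3
      exact hB _ _ _ h3 h (ih _ (by omega) h3 rfl)
    by_cases h1 : P.totalDegree ≤ 1 ∧ Q.totalDegree ≤ 1
    · exact hA _ _ _ _ Co.base h (VA_base h h1.1 h1.2) h0
    · rcases le_total Q.totalDegree P.totalDegree with h2 | h2
      · exact step P Q h hn (by omega) h2
      · exact hA _ _ _ _ h.swap h VA_swap (step Q P h.swap (by omega) (by omega) h2)

lemma Semi.image_VA {γ : RingAut (S K)} (h : Semi γ) : γ '' VA P Q = VA (γ P) (γ Q) := by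
  obtain ⟨ρ, h⟩ := h
  ext g
  constructor
  · rintro ⟨_, ⟨a, b, c, rfl⟩, rfl⟩
    exact ⟨ρ a, ρ b, ρ c, by simp [h]⟩
  · rintro ⟨a, b, c, rfl⟩
    exact ⟨_, ⟨ρ.symm a, ρ.symm b, ρ.symm c, rfl⟩, by simp [h]⟩

lemma Semi.image_VB {γ : RingAut (S K)} (h : Semi γ) : γ '' VB Q = VB (γ Q) := by
  obtain ⟨ρ, h⟩ := h
  ext g
  constructor
  · rintro ⟨_, ⟨b, c, rfl⟩, rfl⟩
    exact ⟨ρ b, ρ c, by simp [h]⟩
  · rintro ⟨b, c, rfl⟩
    exact ⟨_, ⟨ρ.symm b, ρ.symm c, rfl⟩, by simp [h]⟩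

lemma Semi.co {γ : RingAut (S K)} (h : Semi γ) (hc : Co P Q) : Co (γ P) (γ Q) := by
  obtain ⟨ρ, h⟩ := h
  obtain ⟨φ, rfl, rfl⟩ := hc
  have hC : ∀ t : K, φ (C t) = C t := fun t => by rw [← algebraMap_eq, AlgEquiv.commutes]
  refine ⟨AlgEquiv.ofRingEquiv (f := (mapEquiv (Fin 2) ρ.symm).trans (φ.toRingEquiv.trans γ))
    fun t => ?_, ?_, ?_⟩ <;> simp [hC, h]

lemma Semi.ed {γ : RingAut (S K)} (h : Semi γ) {U W : Set (S K)} (he : Ed U W) :
    Ed (γ '' U) (γ '' W) := by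
  obtain ⟨P, Q, c, rfl, rfl⟩ := he
  exact ⟨_, _, h.co c, h.image_VA, h.image_VB⟩

lemma image_mul (γ δ : RingAut (S K)) (U : Set (S K)) : (γ * δ) '' U = γ '' (δ '' U) := by
  rw [Set.image_image]; rfl

theorem exists_chi [CharZero K] (Γ : Subgroup (RingAut (S K))) (hΓ : ∀ γ ∈ Γ, Semi γ)
    {U₁ U₂ : Set (S K)} (h₁ : Ed U₁ (VB (X 1))) (h₂ : Ed U₂ (VB (X 1)))
    (hne : ∀ γ ∈ Γ, γ '' VB (X 1) = VB (X 1) → γ '' U₂ ≠ U₁)
    {σ : RingAut (S K)} (hσ : σ ∈ Γ) (hU : σ '' U₂ = U₁) :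
    ∃ χ : RingAut (S K) → ℤ, (∀ γ ∈ Γ, ∀ δ ∈ Γ, χ (γ * δ) = χ γ + χ δ) ∧
      (∀ γ ∈ Γ, |χ γ| ≤ 2 * (γ (X 1)).totalDegree + 4) ∧ χ σ = 1 := by
  classical
  let f : Set (S K) → Set (S K) → ℤ := fun U W =>
    if ∃ γ ∈ Γ, γ '' U = U₁ ∧ γ '' W = VB (X 1) then 1 else 0
  have finv : ∀ γ ∈ Γ, ∀ U W, f (γ '' U) (γ '' W) = f U W := fun γ hγ U W => by
    refine if_congr ⟨?_, ?_⟩ rfl rfl
    · rintro ⟨δ, hδ, e1, e2⟩
      exact ⟨δ * γ, Γ.mul_mem hδ hγ, by rwa [image_mul], by rwa [image_mul]⟩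
    · rintro ⟨δ, hδ, e1, e2⟩
      refine ⟨δ * γ⁻¹, Γ.mul_mem hδ (Γ.inv_mem hγ), ?_, ?_⟩ <;>
        rwa [← image_mul, inv_mul_cancel_right]
  obtain ⟨HA, HB, hH, hb⟩ := forest2 (Ed (K := K)) dg dg ua ub f (fun U W => by
    simp only [f]; split_ifs <;> simp)
  have key : ∀ γ ∈ Γ, ∀ P Q : S K, Co P Q →
      HB (γ '' VB Q) - HB (VB Q) = HB (γ '' VB (X 1)) - HB (VB (X 1)) := by
    intro γ hγ P Q h
    have ed : ∀ P Q : S K, Co P Q →
        HB (γ '' VB Q) - HB (VB Q) = HA (γ '' VA P Q) - HA (VA P Q) := fun P Q h => by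
      have a1 := hH _ _ ⟨P, Q, h, rfl, rfl⟩
      have a2 := hH _ _ ((hΓ γ hγ).ed ⟨P, Q, h, rfl, rfl⟩)
      rw [finv γ hγ] at a2
      omega
    refine conn (fun _ Q => HB (γ '' VB Q) - HB (VB Q) = HB (γ '' VB (X 1)) - HB (VB (X 1))) rfl
      (fun P Q P' Q' c c' e h => ?_) (fun _ _ _ _ _ h => h) h
    rw [ed _ _ c', ← e, ← ed _ _ c, h]
  refine ⟨fun γ => HB (γ '' VB (X 1)) - HB (VB (X 1)), fun γ hγ δ hδ => ?_, fun γ hγ => ?_, ?_⟩
  · have := key γ hγ _ _ ((hΓ δ hδ).co Co.base)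
    rw [← (hΓ δ hδ).image_VB] at this
    simp only [image_mul]
    omega
  · have a1 := hb (γ '' VB (X 1))
    have a2 := hb (VB (X 1))
    rw [(hΓ γ hγ).image_VB, dg_VB] at a1
    rw [dg_VB, totalDegree_X] at a2
    have := abs_sub (HB (VB (γ (X 1)))) (HB (VB (X 1)))
    simp only [(hΓ γ hγ).image_VB]
    omega
  · have a1 := hH _ _ h₁
    have a2 := hH _ _ ((hΓ σ hσ).ed h₂)
    rw [finv σ hσ, hU] at a2
    have a3 : f U₁ (VB (X 1)) = 1 := if_pos ⟨1, Γ.one_mem, Set.image_id _, Set.image_id _⟩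
    have a4 : f U₂ (VB (X 1)) = 0 := if_neg fun ⟨γ, hγ, e1, e2⟩ => hne γ hγ e2 e1
    simp only
    omega

end Pool.Agent.P.MP_dabb5b_ag
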